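import Pool.Agent.Lib.MP_140312_al_Chain.Recurrent

/-!
# The descending chain condition along flats
-/

open Filter

namespace Pool.Agent.Lib.MP_140312_al_Chain

open Pool.Agent.Lib.MP_140312_al

variable {V : Type*} {G : Type*} [Group G] [MulAction G V] {X : SimpleGraph V}

lemma window_le {hh : ℤ → Set V} {a b : ℤ} {n m : ℕ} (hab : ∀ i : ℤ, |i - a| ≤ n → |i - b| ≤ m) :
    window G hh b m ≤ window G hh a n := by
  intro g hg
  rw [mem_window] at hg ⊢
  exact fun i hi => hg i (hab i hi)

lemma window_anti {hh : ℤ → Set V} (a : ℤ) {n m : ℕ} (hnm : n ≤ m) :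
    window G hh a m ≤ window G hh a n :=
  window_le fun i hi => hi.trans (by exact_mod_cast hnm)

/-- The position `a` is stable at scale `n`. -/
def StableAt (G : Type*) [Group G] [MulAction G V] (hh : ℤ → Set V) (a : ℤ) (n : ℕ) : Prop :=
  ∀ m : ℕ, n ≤ m → (window G hh a m).relIndex (window G hh a n) ≠ 0

lemma StableAt.comm {hh : ℤ → Set V} {a b : ℤ} {n : ℕ} (hb : StableAt G hh b n) :
    (window G hh a n).relIndex (window G hh b n) ≠ 0 := by
  have h1 := hb (n + (a - b).natAbs) (by omega)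
  have h2 : window G hh b (n + (a - b).natAbs) ≤ window G hh a n := by
    apply window_le
    intro i hi
    rw [abs_le] at hi ⊢
    rw [Nat.cast_add]
    omega
  exact fun hcon => h1 (Subgroup.relIndex_eq_zero_of_le_left h2 hcon)

/-- Without `ℤ × ℤ`, only finitely many positions of a flat are stable at a given scale. -/
lemma finite_stableAt (h : IsMedianGraph X) (hG : GeometricAction G X)
    (hZ : ¬ ∃ φ : Multiplicative (ℤ × ℤ) →* G, Function.Injective φ) {f : ℤ → ℤ → V}
    (hf : IsFlat X f) (n : ℕ) : {a : ℕ | StableAt G (vertical X f) a n}.Finite := by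
  by_contra hinf
  exact hZ (z2_of_windows_nat h hG hf n _ hinf fun a _ b hb => StableAt.comm hb)

/-- Transport of windows under a group element. -/
lemma mem_window_conj {hh hh' : ℤ → Set V} {a a' : ℤ} {n : ℕ} {H : G}
    (hH : ∀ i : ℤ, |i| ≤ n → ∀ v, H • v ∈ hh' (i + a') ↔ v ∈ hh (i + a)) {g : G} :
    g ∈ window G hh' a' n ↔ H⁻¹ * g * H ∈ window G hh a n := by
  rw [mem_window, mem_window]
  constructor
  · intro hg i hi v
    have h1 := hH (i - a) hi
    simp only [sub_add_cancel] at h1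
    rw [← h1, mul_smul, mul_smul, smul_inv_smul, hg _ (by rwa [add_sub_cancel_right]), h1]
  · intro hg i hi v
    have h1 := hH (i - a') hi
    simp only [sub_add_cancel] at h1
    have h2 := hg (i - a' + a) (by rwa [add_sub_cancel_right]) (H⁻¹ • v)
    rw [← h1, ← h1, mul_smul, mul_smul, smul_inv_smul, smul_inv_smul] at h2
    exact h2

lemma relIndex_window_conj {hh hh' : ℤ → Set V} {a a' : ℤ} {n m : ℕ} {H : G} (hnm : n ≤ m)
    (hH : ∀ i : ℤ, |i| ≤ m → ∀ v, H • v ∈ hh' (i + a') ↔ v ∈ hh (i + a)) :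
    (window G hh' a' m).relIndex (window G hh' a' n) =
      (window G hh a m).relIndex (window G hh a n) := by
  have key : ∀ k ≤ m, window G hh' a' k = (window G hh a k).map (MulAut.conj H).toMonoidHom := by
    intro k hk
    ext g
    rw [mem_window_conj (hh := hh) (a := a) (H := H)
      (fun i hi => hH i (hi.trans (by exact_mod_cast hk))), Subgroup.mem_map]
    constructor
    · intro hg
      refine ⟨_, hg, ?_⟩
      simp [mul_assoc]
    · rintro ⟨x, hx, rfl⟩
      simpa [mul_assoc] using hx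
  rw [key m le_rfl, key n hnm]
  exact Subgroup.relIndex_map_map_of_injective _ _ (MulAut.conj H).injective

/-- One step of the construction of a flat with infinitely many infinite index drops. -/
lemma exists_unstable_step (h : IsMedianGraph X) (hG : GeometricAction G X)
    (hZ : ¬ ∃ φ : Multiplicative (ℤ × ℤ) →* G, Function.Injective φ) {f : ℤ → ℤ → V}
    (hf : IsFlat X f)
    (hrec : ∀ R : ℕ, {b : ℕ | ∃ g : G, ∀ i j : ℤ, |i| ≤ R → |j| ≤ R →
      g • f i j = f (i + b) (j + b)}.Infinite) (a R k : ℕ) :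
    ∃ (b R' : ℕ) (g : G), R + 1 ≤ R' ∧ k + 1 ≤ R' ∧
      (∀ i j : ℤ, |i| ≤ R + 1 → |j| ≤ R + 1 →
        g • f (i + a) (j + a) = f (i + (a + b : ℕ)) (j + (a + b : ℕ))) ∧
      (window G (vertical X f) (a + b : ℕ) R').relIndex
        (window G (vertical X f) (a + b : ℕ) (k + 1)) = 0 ∧
      (window G (horizontal X f) (a + b : ℕ) R').relIndex
        (window G (horizontal X f) (a + b : ℕ) (k + 1)) = 0 := by
  have hfin1 : {b : ℕ | StableAt G (vertical X f) (a + b : ℕ) (k + 1)}.Finite :=
    (finite_stableAt h hG hZ hf (k + 1)).preimage (f := fun b => a + b)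
      (add_right_injective a).injOn
  have hfin2 : {b : ℕ | StableAt G (horizontal X f) (a + b : ℕ) (k + 1)}.Finite :=
    (finite_stableAt h hG hZ (isFlat_flip hf) (k + 1)).preimage (f := fun b => a + b)
      (add_right_injective a).injOn
  obtain ⟨b, hb1, hb2⟩ := ((hrec (a + R + 1)).diff (hfin1.union hfin2)).nonempty
  obtain ⟨g, hg⟩ := hb1
  simp only [Set.mem_union, Set.mem_ofPred_eq, not_or, StableAt, not_forall, not_not] at hb2
  obtain ⟨⟨m₁, hm₁, h1⟩, ⟨m₂, hm₂, h2⟩⟩ := hb2
  refine ⟨b, max (max m₁ m₂) (R + 1), g, le_max_right _ _,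
    hm₁.trans ((le_max_left _ _).trans (le_max_left _ _)), ?_, ?_, ?_⟩
  · intro i j hi hj
    rw [hg]
    · congr 1 <;> push_cast <;> ring
    · rw [abs_le] at hi ⊢
      push_cast
      omega
    · rw [abs_le] at hj ⊢
      push_cast
      omega
  · exact Subgroup.relIndex_eq_zero_of_le_left
      (window_anti _ ((le_max_left _ _).trans (le_max_left _ _))) h1
  · exact Subgroup.relIndex_eq_zero_of_le_left
      (window_anti _ ((le_max_right _ _).trans (le_max_left _ _))) h2

/-- Without `ℤ × ℤ`, every nonempty closed invariant family of flats has a member such that both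
sequences of common stabilisers have infinitely many infinite index drops. -/
theorem exists_flat_not_stabilizes (h : IsMedianGraph X) (hG : GeometricAction G X)
    (hZ : ¬ ∃ φ : Multiplicative (ℤ × ℤ) →* G, Function.Injective φ) {𝓕 : Set (ℤ → ℤ → V)}
    (h𝓕 : IsFlatFamily G X 𝓕) (hex : 𝓕.Nonempty) :
    ∃ f ∈ 𝓕, ¬ Stabilizes G (vertical X f) ∧ ¬ Stabilizes G (horizontal X f) := by
  have hc := h.connected
  obtain ⟨f', hf'⟩ := hex
  obtain ⟨f, hf𝓕, hrec⟩ := exists_recurrent hG hc h𝓕 hf'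
  have hf := h𝓕.isFlat f hf𝓕
  choose b R' g hR hk hgf hv hh using exists_unstable_step h hG hZ hf hrec
  obtain ⟨s, hs0, hs⟩ : ∃ s : ℕ → ℕ × ℕ × G, s 0 = (0, 0, 1) ∧ ∀ k, s (k + 1) =
      ((s k).1 + b (s k).1 (s k).2.1 k, R' (s k).1 (s k).2.1 k,
        (s k).2.2 * (g (s k).1 (s k).2.1 k)⁻¹) :=
    ⟨fun k => Nat.rec (0, 0, 1) (fun k t => (t.1 + b t.1 t.2.1 k, R' t.1 t.2.1 k,
      t.2.2 * (g t.1 t.2.1 k)⁻¹)) k, rfl, fun k => rfl⟩
  set A : ℕ → ℕ := fun k => (s k).1 with hA
  set R : ℕ → ℕ := fun k => (s k).2.1 with hRdef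
  set H : ℕ → G := fun k => (s k).2.2 with hH
  have hAs : ∀ k, A (k + 1) = A k + b (A k) (R k) k := fun k => by simp only [hA, hRdef, hs]
  have hRs : ∀ k, R (k + 1) = R' (A k) (R k) k := fun k => by simp only [hA, hRdef, hs]
  have hHs : ∀ k, H (k + 1) = H k * (g (A k) (R k) k)⁻¹ := fun k => by
    simp only [hA, hRdef, hH, hs]
  have hRmono : StrictMono R := strictMono_nat_of_lt_succ fun k => by
    rw [hRs]
    have := hR (A k) (R k) k
    omega
  have hRk : ∀ k, k ≤ R k := hRmono.id_le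
  set ψ : ℕ → ℤ → ℤ → V := fun k i j => H k • f (i + A k) (j + A k) with hψ
  have hψs : ∀ k (i j : ℤ), |i| ≤ R k + 1 → |j| ≤ R k + 1 → ψ (k + 1) i j = ψ k i j := by
    intro k i j hi hj
    simp only [hψ]
    rw [hHs, hAs, ← hgf (A k) (R k) k i j hi hj, mul_smul, inv_smul_smul]
  have hψm : ∀ k m, k ≤ m → ∀ i j : ℤ, |i| ≤ R k + 1 → |j| ≤ R k + 1 → ψ m i j = ψ k i j := by
    intro k m hkm i j hi hj
    induction m, hkm using Nat.le_induction with
    | base => rfl
    | succ m hkm ih =>
      have h1 : (R k : ℤ) ≤ R m := by exact_mod_cast hRmono.monotone hkm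
      rw [hψs m i j (by omega) (by omega), ih]
  set F : ℤ → ℤ → V := fun i j => ψ (i.natAbs + j.natAbs) i j with hFdef
  have hF : ∀ k (i j : ℤ), |i| ≤ R k + 1 → |j| ≤ R k + 1 → F i j = ψ k i j := by
    intro k i j hi hj
    rcases le_total k (i.natAbs + j.natAbs) with h1 | h1
    · exact hψm _ _ h1 i j hi hj
    · refine (hψm _ _ h1 i j ?_ ?_).symm
      · have := hRk (i.natAbs + j.natAbs)
        rw [abs_le]
        omega
      · have := hRk (i.natAbs + j.natAbs)
        rw [abs_le]
        omega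
  have hF𝓕 : F ∈ 𝓕 := by
    apply h𝓕.limit_mem
    intro n
    refine ⟨ψ n, h𝓕.smul_mem (H n) _ (h𝓕.translate_mem (A n) (A n) f hf𝓕), fun i j hi hj => ?_⟩
    have h1 := hRk n
    exact (hF n i j (by rw [abs_le]; omega) (by rw [abs_le]; omega)).symm
  have hFflat : IsFlat X F := h𝓕.isFlat F hF𝓕
  -- windows of `F`
  have hvert : ∀ k (i : ℤ), |i| ≤ R k → ∀ v, H k • v ∈ vertical X F (i + 0) ↔
      v ∈ vertical X f (i + A k) := by
    intro k i hi v
    rw [abs_le] at hi
    apply smul_vertical h hG hf hFflat (j := A k) (j' := 0)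
    · rw [hF k _ _ (by rw [abs_le]; omega) (by simp; omega)]
      simp [hψ]
    · rw [hF k _ _ (by rw [abs_le]; omega) (by simp; omega)]
      simp only [hψ]
      congr 2
      · ring
      · ring
  have hhor : ∀ k (i : ℤ), |i| ≤ R k → ∀ v, H k • v ∈ horizontal X F (i + 0) ↔
      v ∈ horizontal X f (i + A k) := by
    intro k i hi v
    rw [abs_le] at hi
    apply smul_vertical h hG (isFlat_flip hf) (isFlat_flip hFflat) (j := A k) (j' := 0)
    · show H k • f (A k) (i + A k) = F 0 (i + 0)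
      rw [hF k _ _ (by simp; omega) (by rw [abs_le]; omega)]
      simp [hψ]
    · show H k • f (A k) (i + A k + 1) = F 0 (i + 0 + 1)
      rw [hF k _ _ (by simp; omega) (by rw [abs_le]; omega)]
      simp only [hψ]
      congr 2
      · ring
      · ring
  refine ⟨F, hF𝓕, ?_, ?_⟩
  · rintro ⟨n, hn⟩
    have h1 := relIndex_window_conj (G := G) (hh := vertical X f) (hh' := vertical X F)
      (a := A (n + 1)) (a' := 0) (n := n + 1) (m := R (n + 1)) (H := H (n + 1)) (hRk _)
      (hvert (n + 1))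
    have h2 := hv (A n) (R n) n
    rw [← hAs, ← hRs] at h2
    rw [h2] at h1
    have h3 := hn (R (n + 1)) (by have := hRk (n + 1); omega)
    exact h3 (Subgroup.relIndex_eq_zero_of_le_right (window_anti 0 (Nat.le_succ n)) h1)
  · rintro ⟨n, hn⟩
    have h1 := relIndex_window_conj (G := G) (hh := horizontal X f) (hh' := horizontal X F)
      (a := A (n + 1)) (a' := 0) (n := n + 1) (m := R (n + 1)) (H := H (n + 1)) (hRk _)
      (hhor (n + 1))
    have h2 := hh (A n) (R n) n
    rw [← hAs, ← hRs] at h2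
    rw [h2] at h1
    have h3 := hn (R (n + 1)) (by have := hRk (n + 1); omega)
    exact h3 (Subgroup.relIndex_eq_zero_of_le_right (window_anti 0 (Nat.le_succ n)) h1)

/-- **Flat closing under the chain condition**, for a closed invariant family of flats. -/
theorem z2_of_stabilizes (h : IsMedianGraph X) (hG : GeometricAction G X)
    {𝓕 : Set (ℤ → ℤ → V)} (h𝓕 : IsFlatFamily G X 𝓕) (hex : 𝓕.Nonempty)
    (hst : ∀ f ∈ 𝓕, Stabilizes G (vertical X f) ∨ Stabilizes G (horizontal X f)) :
    ∃ φ : Multiplicative (ℤ × ℤ) →* G, Function.Injective φ := by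
  by_contra hZ
  obtain ⟨f, hf, h1, h2⟩ := exists_flat_not_stabilizes h hG hZ h𝓕 hex
  rcases hst f hf with h3 | h3
  · exact h1 h3
  · exact h2 h3

/-- **Flat closing under the chain condition.** -/
theorem z2_or_hyperbolic (h : IsMedianGraph X) (hG : GeometricAction G X)
    (hst : ∀ f, IsFlat X f → Stabilizes G (vertical X f) ∨ Stabilizes G (horizontal X f)) :
    (∃ φ : Multiplicative (ℤ × ℤ) →* G, Function.Injective φ) ∨ IsHyperbolic X := by
  refine or_iff_not_imp_right.2 fun hnh => ?_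
  refine z2_of_stabilizes h hG (isFlatFamily_all hG h.connected) ?_ hst
  by_contra hex
  rw [Set.not_nonempty_iff_eq_empty] at hex
  apply hnh
  refine isHyperbolic_of_no_flat h hG ?_
  rintro ⟨f, hf⟩
  have : f ∈ (∅ : Set (ℤ → ℤ → V)) := hex ▸ hf
  exact this

end Pool.Agent.Lib.MP_140312_al_Chain
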