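import Pool.Agent.Lib.MP_140312_al_Chain.Chain

/-!
# Hyperbolicity implies the chain condition
-/

open Filter

namespace Pool.Agent.Lib.MP_140312_al_Chain

open Pool.Agent.Lib.MP_140312_al

variable {V : Type*} {G : Type*} [Group G] [MulAction G V] {X : SimpleGraph V}

lemma finite_displacement (hG : GeometricAction G X) (hc : X.Connected) (x : V) (N : ℕ) :
    {g : G | X.dist x (g • x) ≤ N}.Finite := by
  have h1 : {g : G | X.dist x (g • x) ≤ N} ⊆
      ⋃ y ∈ {y | X.dist x y ≤ N}, {g : G | g • x = y} := by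
    intro g hg
    simp only [Set.mem_iUnion]
    exact ⟨g • x, hg, rfl⟩
  refine ((ball_finite hG hc x N).biUnion fun y _ => ?_).subset h1
  by_cases hy : ∃ g₀ : G, g₀ • x = y
  · obtain ⟨g₀, rfl⟩ := hy
    have h2 : {g : G | g • x = g₀ • x} ⊆ (fun u => g₀ * u) '' {u : G | u • x = x} := by
      intro g hg
      have hg' : g • x = g₀ • x := hg
      refine ⟨g₀⁻¹ * g, ?_, by group⟩
      show (g₀⁻¹ * g) • x = x
      rw [mul_smul, hg', inv_smul_smul]
    exact ((hG.finite_stabilizer x).image _).subset h2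
  · have h2 : {g : G | g • x = y} = ∅ := by
      ext g
      simp only [Set.mem_ofPred_eq, Set.mem_empty_iff_false, iff_false]
      exact fun hg => hy ⟨g, hg⟩
    rw [h2]
    exact Set.finite_empty

lemma exists_ball_bound (hG : GeometricAction G X) (hc : X.Connected) (r : ℕ) :
    ∃ N : ℕ, ∀ c : V, {y | X.dist c y ≤ r}.ncard ≤ N := by
  obtain ⟨D, hD, hcov⟩ := hG.cocompact
  obtain ⟨N, hN⟩ := (hD.image (fun x => {y | X.dist x y ≤ r}.ncard)).bddAbove
  refine ⟨N, fun c => ?_⟩
  obtain ⟨g, hg⟩ := hcov c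
  refine le_trans ?_ (hN ⟨_, hg, rfl⟩)
  refine Set.ncard_le_ncard_of_injOn (fun y => g • y) ?_ (MulAction.injective g).injOn
    (ball_finite hG hc _ _)
  intro y hy
  show X.dist (g • c) (g • y) ≤ r
  rw [dist_smul hG hc]
  exact hy

/-- The inner side of the boundary: `Rows` of length one. -/
lemma mem_rows_one (A : Set V) (v : V) :
    v ∈ Rows X 1 (fun _ => A) ↔ ∃ w, X.Adj v w ∧ halfspace X w v = A := by
  constructor
  · rintro ⟨w, h1, h2, _⟩
    exact ⟨w, h1, h2⟩
  · rintro ⟨w, h1, h2⟩
    exact ⟨w, h1, h2, trivial⟩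

/-- In a hyperbolic complex, the hyperplanes of finitely many halfspaces with infinite common
stabiliser all pass close to one vertex. -/
lemma exists_common_point (h : IsMedianGraph X) (hG : GeometricAction G X) {δ : ℕ}
    (hδ : ∀ x y z w : V, X.dist x y + X.dist z w ≤
      max (X.dist x z + X.dist y w) (X.dist x w + X.dist y z) + δ)
    (hh : ℕ → Set V) (hhs : ∀ i, IsHalfspace X (hh i)) (n : ℕ)
    (hinf : (commonStab G {A | ∃ i < n, A = hh i} : Set G).Infinite) :
    ∃ c : V, ∀ i < n, ∃ p, X.dist c p ≤ δ ∧ p ∈ Rows X 1 (fun _ => hh i) := by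
  have hc := h.connected
  obtain ⟨x⟩ := hc.nonempty
  have hconv : ∀ i, GConvex X (Rows X 1 (fun _ => hh i)) := fun i => gconvex_rows h _ _
  have hne : ∀ i, (Rows X 1 (fun _ => hh i)).Nonempty := by
    intro i
    obtain ⟨a, b, hab, hA⟩ := hhs i
    exact ⟨b, (mem_rows_one _ _).2 ⟨a, hab.symm, hA.symm⟩⟩
  choose q hq using fun i => exists_gate h (hconv i) (hne i) x
  obtain ⟨t, ht⟩ : ∃ t, ∀ i < n, X.dist x (q i) ≤ t := by
    obtain ⟨t, ht⟩ := ((Set.finite_Iio n).image (fun i => X.dist x (q i))).bddAbove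
    exact ⟨t, fun i hi => ht ⟨i, hi, rfl⟩⟩
  obtain ⟨k, hk, hkfar⟩ : ∃ k ∈ commonStab G {A | ∃ i < n, A = hh i},
      2 * (t + 2 * δ + 1) < X.dist x (k • x) := by
    by_contra hcon
    push Not at hcon
    exact hinf ((finite_displacement hG hc x _).subset fun k hk => hcon k hk)
  obtain ⟨u, hu0, hu1, hu⟩ := exists_geodesic hc x (k • x)
  set N := X.dist x (k • x) with hN
  have hdist : ∀ i j, i ≤ j → j ≤ N → X.dist (u i) (u j) ≤ j - i := by
    intro i j hij hj
    induction j, hij using Nat.le_induction with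
    | base => simp
    | succ j hij ih =>
      have h1 := ih (by omega)
      have h2 := SimpleGraph.dist_eq_one_iff_adj.2 (hu j (by omega))
      have h3 : X.dist (u i) (u (j + 1)) ≤ X.dist (u i) (u j) + X.dist (u j) (u (j + 1)) :=
        hc.dist_triangle
      omega
  set s := t + 2 * δ + 1 with hs
  set c := u s with hcdef
  have hcx : X.dist x c ≤ s := by
    have := hdist 0 s (Nat.zero_le _) (by omega)
    rwa [hu0, Nat.sub_zero] at this
  have hck : X.dist c (k • x) ≤ N - s := by
    have := hdist s N (by omega) le_rfl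
    rwa [hu1] at this
  have htri : N ≤ X.dist x c + X.dist c (k • x) := hc.dist_triangle
  refine ⟨c, fun i hi => ?_⟩
  obtain ⟨ci, hci⟩ := exists_gate h (hconv i) (hne i) c
  refine ⟨ci, ?_, hci.1⟩
  have hkrows : ∀ v, k • v ∈ Rows X 1 (fun _ => hh i) ↔ v ∈ Rows X 1 (fun _ => hh i) := by
    apply smul_rows hG hc
    intro _ _
    exact hk _ ⟨i, hi, rfl⟩
  have hti := ht i hi
  have g1 := hci.2 (q i) (hq i).1
  have g2 := hci.2 (k • q i) ((hkrows _).2 (hq i).1)
  have g3 : X.dist (k • x) (k • q i) = X.dist x (q i) := dist_smul hG hc _ _ _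
  have four := hδ c ci x (k • x)
  have fourA := hδ ci (k • x) c (k • q i)
  have fourB := hδ ci x c (q i)
  have e1 : X.dist c x = X.dist x c := SimpleGraph.dist_comm
  have e2 : X.dist ci c = X.dist c ci := SimpleGraph.dist_comm
  have e3 : X.dist ci (k • x) = X.dist (k • x) ci := SimpleGraph.dist_comm
  have e4 : X.dist (k • x) c = X.dist c (k • x) := SimpleGraph.dist_comm
  have e5 : X.dist ci x = X.dist x ci := SimpleGraph.dist_comm
  rcases le_max_iff.1 (show X.dist c ci + X.dist x (k • x) - δ ≤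
    max (X.dist c x + X.dist ci (k • x)) (X.dist c (k • x) + X.dist ci x) by omega) with h1 | h1
  · rcases le_max_iff.1 (show X.dist ci (k • x) + X.dist c (k • q i) - δ ≤
      max (X.dist ci c + X.dist (k • x) (k • q i)) (X.dist ci (k • q i) + X.dist (k • x) c)
      by omega) with h2 | h2
    · omega
    · omega
  · rcases le_max_iff.1 (show X.dist ci x + X.dist c (q i) - δ ≤
      max (X.dist ci c + X.dist x (q i)) (X.dist ci (q i) + X.dist x c)
      by omega) with h2 | h2
    · omega
    · omega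

/-- Hyperbolicity implies the chain condition. -/
theorem chainCondition_of_isHyperbolic (h : IsMedianGraph X) (hG : GeometricAction G X)
    (hyp : IsHyperbolic X) : ChainCondition G X := by
  classical
  have hc := h.connected
  obtain ⟨δ, hδ⟩ := hyp
  intro hh hhs
  by_cases hfin : ∃ n, (commonStab G {A | ∃ i < n, A = hh i} : Set G).Finite
  · obtain ⟨n, hn⟩ := hfin
    refine ⟨n, fun m _ => ?_⟩
    have : Finite (commonStab G {A | ∃ i < n, A = hh i}) := hn
    exact Subgroup.index_ne_zero_of_finite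
  · push Not at hfin
    obtain ⟨N, hN⟩ := exists_ball_bound hG hc (δ + 1)
    -- the range of `hh` is finite
    have hrange : (Set.range hh).Finite := by
      by_contra hinf
      have hinf' : (Set.range hh).Infinite := hinf
      obtain ⟨S, hS, hScard⟩ := hinf'.exists_subset_card_eq (N * N + 1)
      have hpre : ∀ A ∈ S, ∃ i, hh i = A := fun A hA => hS hA
      choose! idx hidx using hpre
      obtain ⟨n, hn⟩ := (S.finite_toSet.image idx).bddAbove
      obtain ⟨c, hcn⟩ := exists_common_point h hG hδ hh hhs (n + 1) (hfin (n + 1))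
      have hmem : ∀ A ∈ S, ∃ pq ∈ {y | X.dist c y ≤ δ + 1} ×ˢ {y | X.dist c y ≤ δ + 1},
          halfspace X pq.1 pq.2 = A := by
        intro A hA
        have h1 : idx A ≤ n := hn ⟨A, hA, rfl⟩
        obtain ⟨p, hp, hpr⟩ := hcn (idx A) (by omega)
        obtain ⟨w, hpw, hw⟩ := (mem_rows_one _ _).1 hpr
        refine ⟨(w, p), ⟨?_, ?_⟩, ?_⟩
        · show X.dist c w ≤ δ + 1
          have h2 : X.dist c w ≤ X.dist c p + X.dist p w := hc.dist_triangle
          rw [SimpleGraph.dist_eq_one_iff_adj.2 hpw] at h2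
          omega
        · show X.dist c p ≤ δ + 1
          omega
        · rw [hidx A hA] at hw
          exact hw
      have : Nonempty V := hc.nonempty
      choose! e he1 he2 using hmem
      have hball := ball_finite hG hc c (δ + 1)
      have h1 : (S : Set (Set V)).ncard ≤
          ({y | X.dist c y ≤ δ + 1} ×ˢ {y | X.dist c y ≤ δ + 1}).ncard := by
        refine Set.ncard_le_ncard_of_injOn e (fun A hA => he1 A hA) ?_ (hball.prod hball)
        intro A hA B hB hAB
        rw [← he2 A hA, ← he2 B hB, hAB]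
      rw [Set.ncard_coe_finset, hScard, Set.ncard_prod] at h1
      have h2 := Nat.mul_le_mul (hN c) (hN c)
      omega
    -- choose `n` such that all halfspaces occur among the first `n`
    obtain ⟨n, hn⟩ : ∃ n, ∀ i, ∃ j < n, hh j = hh i := by
      have hpre : ∀ A ∈ Set.range hh, ∃ i, hh i = A := fun A hA => hA
      choose! idx hidx using hpre
      obtain ⟨n, hn⟩ := (hrange.image idx).bddAbove
      refine ⟨n + 1, fun i => ⟨idx (hh i), ?_, hidx _ ⟨i, rfl⟩⟩⟩
      have := hn ⟨hh i, ⟨i, rfl⟩, rfl⟩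
      omega
    refine ⟨n, fun m hm => ?_⟩
    have heq : commonStab G {A | ∃ i < n, A = hh i} ≤ commonStab G {A | ∃ i < m, A = hh i} := by
      intro g hg
      rw [mem_commonStab] at hg ⊢
      rintro A ⟨i, _, rfl⟩
      obtain ⟨j, hj, hji⟩ := hn i
      rw [← hji]
      exact hg _ ⟨j, hj, rfl⟩
    rw [Subgroup.relIndex_eq_one.2 heq]
    exact one_ne_zero

/-- Under the chain condition, the sequences of common stabilisers of a flat stabilise. -/
lemma stabilizes_of_chainCondition (hG : ChainCondition G X) (hh : ℤ → Set V)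
    (hhs : ∀ i, IsHalfspace X (hh i)) : Stabilizes G hh := by
  let e : ℕ → ℤ := fun k => if k % 2 = 0 then ((k / 2 : ℕ) : ℤ) else -(((k + 1) / 2 : ℕ) : ℤ)
  have heq : ∀ m : ℕ, commonStab G {A | ∃ i < 2 * m + 1, A = hh (e i)} = window G hh 0 m := by
    intro m
    ext g
    rw [mem_window, mem_commonStab]
    constructor
    · intro hg i hi
      rw [abs_le] at hi
      rcases lt_or_ge i 0 with h0 | h0
      · have h1 : e (2 * i.natAbs - 1) = i := by
          simp only [e]
          rw [if_neg (by omega)]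
          omega
        rw [← h1]
        exact hg _ ⟨2 * i.natAbs - 1, by omega, rfl⟩
      · have h1 : e (2 * i.natAbs) = i := by
          simp only [e]
          rw [if_pos (by omega)]
          omega
        rw [← h1]
        exact hg _ ⟨2 * i.natAbs, by omega, rfl⟩
    · rintro hg A ⟨i, hi, rfl⟩
      apply hg
      rw [sub_zero, abs_le]
      simp only [e]
      split_ifs <;> omega
  obtain ⟨n, hn⟩ := hG (fun k => hh (e k)) (fun k => hhs _)
  refine ⟨n, fun m hm => ?_⟩
  rw [← heq, ← heq]
  intro hcon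
  have h1 := hn (2 * m + 1) (by omega)
  have hle : commonStab G {A | ∃ i < 2 * n + 1, A = hh (e i)} ≤
      commonStab G {A | ∃ i < n, A = hh (e i)} := by
    intro g hg
    rw [mem_commonStab] at hg ⊢
    rintro A ⟨i, hi, rfl⟩
    exact hg _ ⟨i, by omega, rfl⟩
  exact h1 (Subgroup.relIndex_eq_zero_of_le_right hle hcon)

lemma isHalfspace_vertical {f : ℤ → ℤ → V} (hf : IsFlat X f) (i : ℤ) :
    IsHalfspace X (vertical X f i) := ⟨_, _, adj_vertical hf i 0, rfl⟩

/-- Without `ℤ × ℤ`, hyperbolicity is equivalent to the chain condition. -/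
theorem isHyperbolic_iff_chainCondition (h : IsMedianGraph X) (hG : GeometricAction G X)
    (hZ : ¬ ∃ φ : Multiplicative (ℤ × ℤ) →* G, Function.Injective φ) :
    IsHyperbolic X ↔ ChainCondition G X := by
  refine ⟨chainCondition_of_isHyperbolic h hG, fun hcc => ?_⟩
  refine (z2_or_hyperbolic h hG fun f hf => Or.inl ?_).resolve_left hZ
  exact stabilizes_of_chainCondition hcc _ (isHalfspace_vertical hf)

end Pool.Agent.Lib.MP_140312_al_Chain
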