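import Pool.Agent.Lib.MP_140312_al_Chain.Main

/-!
# An example of the chain condition: far apart hyperplanes with cyclic common stabiliser
-/

namespace Pool.Agent.Lib.MP_140312_al_Chain

open Pool.Agent.Lib.MP_140312_al

variable {V : Type*} {G : Type*} [Group G] [MulAction G V] {X : SimpleGraph V}

/-- Points on the two sides of `n + 1` nested halfspaces are at distance at least `n + 1`. -/
lemma dist_of_chain (h : IsMedianGraph X) : ∀ (n : ℕ) (A : ℕ → Set V),
    (∀ k, IsHalfspace X (A k)) → (∀ k, A (k + 1) ⊆ A k) → (∀ k, A (k + 1) ≠ A k) →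
    ∀ y z : V, y ∉ A 0 → z ∈ A n → n + 1 ≤ X.dist y z := by
  have hc := h.connected
  intro n
  induction n with
  | zero =>
    intro A _ _ _ y z hy hz
    have hne : y ≠ z := by
      rintro rfl
      exact hy hz
    exact hc.pos_dist_of_ne hne
  | succ n ih =>
    intro A hA hsub hne y z hy hz
    have hz0 : z ∈ A 0 := by
      have hanti : Antitone A := antitone_nat_of_succ_le hsub
      exact hanti (Nat.zero_le (n + 1)) hz
    obtain ⟨w'', w', hadj, hw'', hw', hd⟩ := exists_crossing_edge hc _ y z rfl hy hz0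
    have hw'1 : w' ∉ A 1 := by
      intro hcon
      obtain ⟨a, b, hab, hA0⟩ := hA 0
      obtain ⟨a', b', hab', hA1⟩ := hA 1
      have e0 : halfspace X w' w'' = A 0 := by
        rw [hA0] at hw' hw'' ⊢
        exact halfspace_eq_of_crossing_edge h hab _ w' w'' hadj.symm rfl hw' hw''
      have hw''1 : w'' ∉ A 1 := fun hc' => hw'' (hsub 0 hc')
      have e1 : halfspace X w' w'' = A 1 := by
        rw [hA1] at hcon hw''1 ⊢
        exact halfspace_eq_of_crossing_edge h hab' _ w' w'' hadj.symm rfl hcon hw''1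
      exact hne 0 (e1.symm.trans e0)
    have := ih (fun k => A (k + 1)) (fun k => hA _) (fun k => hsub _) (fun k => hne _) w' z hw'1 hz
    omega

lemma infinite_order_of_skewer {A : Set V} {l : G} (hl : ∀ v ∈ A, l • v ∈ A) {v₁ : V}
    (hv₁ : v₁ ∈ A) (hv₁' : l⁻¹ • v₁ ∉ A) (m : ℕ) (hm : 0 < m) : l ^ m ≠ 1 := by
  intro hcon
  have hpow : ∀ (k : ℕ) v, v ∈ A → l ^ k • v ∈ A := by
    intro k
    induction k with
    | zero => intro v hv; simpa using hv
    | succ k ih => intro v hv; rw [pow_succ, mul_smul]; exact ih _ (hl v hv)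
  apply hv₁'
  have h1 : l⁻¹ = l ^ (m - 1) := by
    rw [inv_eq_iff_mul_eq_one, ← pow_succ', show m - 1 + 1 = m by omega, hcon]
  rw [h1]
  exact hpow _ _ hv₁

lemma relIndex_zpowers_pow (z : G) (q : ℤ) (hq : q ≠ 0) :
    (Subgroup.zpowers (z ^ q)).relIndex (Subgroup.zpowers z) ≠ 0 := by
  have h1 : Subgroup.zpowers (z ^ q) =
      (Subgroup.zpowers (Multiplicative.ofAdd q)).map (zpowersHom G z) := by
    rw [MonoidHom.map_zpowers]
    simp
  have h2 : Subgroup.zpowers z = (⊤ : Subgroup (Multiplicative ℤ)).map (zpowersHom G z) := by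
    ext g
    simp only [Subgroup.mem_zpowers_iff, Subgroup.mem_map, Subgroup.mem_top, true_and]
    constructor
    · rintro ⟨k, rfl⟩
      exact ⟨Multiplicative.ofAdd k, by simp⟩
    · rintro ⟨k, rfl⟩
      exact ⟨k.toAdd, by simp⟩
  rw [h1, h2, Subgroup.relIndex_map_map, top_sup_eq, Subgroup.relIndex_top_right]
  intro hcon
  have h3 := Subgroup.index_dvd_of_le
    (le_sup_left : Subgroup.zpowers (Multiplicative.ofAdd q) ≤
      Subgroup.zpowers (Multiplicative.ofAdd q) ⊔ (zpowersHom G z).ker)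
  rw [hcon, zero_dvd_iff] at h3
  have h4 : (AddSubgroup.toSubgroup (AddSubgroup.zmultiples q)) =
      Subgroup.zpowers (Multiplicative.ofAdd q) := by
    ext k
    rfl
  rw [← h4, AddSubgroup.index_toSubgroup, Int.index_zmultiples] at h3
  exact hq (Int.natAbs_eq_zero.1 h3)

/-- If the common stabiliser of any two nested halfspaces at distance at least `n` is virtually
cyclic, then the common stabilisers along flats stabilise. -/
theorem stabilizes_of_cyclic (h : IsMedianGraph X) (hG : GeometricAction G X) (n : ℕ)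
    (hcyc : ∀ A B : Set V, IsHalfspace X A → IsHalfspace X B → B ⊆ A →
      (∀ y ∉ A, ∀ z ∈ B, n ≤ X.dist y z) →
      ∃ z : G, (Subgroup.zpowers z).relIndex (commonStab G {A, B}) ≠ 0)
    {f : ℤ → ℤ → V} (hf : IsFlat X f) : Stabilizes G (vertical X f) := by
  obtain ⟨g, hg, hgn⟩ := exists_nested h hG hf (fun k => (k : ℤ)) (fun a b hab => by
    show (a : ℤ) < b
    exact_mod_cast hab)
  have hgn' : ∀ m k, m < k → vertical X f (g k : ℕ) ⊆ vertical X f (g m : ℕ) := hgn
  have hdist : ∀ y ∉ vertical X f (g 0 : ℕ), ∀ z ∈ vertical X f (g n : ℕ), n ≤ X.dist y z := by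
    intro y hy z hz
    have := dist_of_chain h n (fun k => vertical X f (g k : ℕ))
      (fun k => isHalfspace_vertical hf _) (fun k => hgn' _ _ (Nat.lt_succ_self k)) (fun k heq => by
        have h1 : f ((g k : ℕ) + 1) 0 ∈ vertical X f (g k : ℕ) := by
          rw [mem_vertical h hf]; omega
        rw [← heq, mem_vertical h hf] at h1
        have h2 : g k < g (k + 1) := hg (Nat.lt_succ_self k)
        omega) y z hy hz
    omega
  have hsub : vertical X f (g n : ℕ) ⊆ vertical X f (g 0 : ℕ) := by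
    rcases Nat.eq_zero_or_pos n with rfl | hn
    · exact subset_rfl
    · exact hgn' _ _ hn
  obtain ⟨z, hz⟩ := hcyc _ _ (isHalfspace_vertical hf (g 0 : ℕ)) (isHalfspace_vertical hf (g n : ℕ))
    hsub hdist
  set K := commonStab G {vertical X f (g 0 : ℕ), vertical X f (g n : ℕ)} with hK
  have hle : ∀ m : ℕ, g n ≤ m → window G (vertical X f) 0 m ≤ K := by
    intro m hm u hu
    rw [mem_window] at hu
    rintro A hA
    have h0 : g 0 ≤ g n := hg.monotone (Nat.zero_le n)
    rcases hA with rfl | hA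
    · exact hu _ (by rw [abs_le]; omega)
    · rw [Set.mem_singleton_iff] at hA
      subst hA
      exact hu _ (by rw [abs_le]; omega)
  refine ⟨g n, fun m hm => ?_⟩
  obtain ⟨σ, τ, _, hστ, l, hl, hl1, hl2, hlW⟩ := exists_vertical_shift h hG hf 0 m 0
  have hlK : l ∈ K := hle m hm hl
  -- `l` has infinite order
  have hord : ∀ k : ℕ, 0 < k → l ^ k ≠ 1 := by
    have e1 : halfspace X (f (0 - m) (σ + 1)) (f (0 - m) σ) = horizontal X f σ :=
      vertical_eq h (isFlat_flip hf) σ (0 - m)
    have e2 : halfspace X (f (0 - m) (τ + 1)) (f (0 - m) τ) = horizontal X f τ :=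
      vertical_eq h (isFlat_flip hf) τ (0 - m)
    have hlW' : ∀ v, l • v ∈ horizontal X f τ ↔ v ∈ horizontal X f σ := by
      intro v
      rw [← e1]
      apply smul_halfspace_iff hG h.connected
      rw [hl1, hl2, e2]
    refine infinite_order_of_skewer (A := horizontal X f σ) (v₁ := f 0 (σ + 1))
      (fun v hv => hlW ((hlW' v).2 hv)) ?_ ?_
    · have := mem_vertical h (isFlat_flip hf) (σ + 1) 0 σ
      exact this.2 (by omega)
    · rw [← hlW', smul_inv_smul]
      have := mem_vertical h (isFlat_flip hf) (σ + 1) 0 τ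
      exact fun hcon => by
        have := this.1 hcon
        omega
  obtain ⟨p, hp, _, hpz⟩ := Subgroup.exists_pow_mem_of_relIndex_ne_zero hz hlK
  obtain ⟨q, hq⟩ := Subgroup.mem_zpowers_iff.1 hpz.1
  have hq0 : q ≠ 0 := by
    rintro rfl
    rw [zpow_zero] at hq
    exact hord p hp hq.symm
  have h1 : (Subgroup.zpowers (z ^ q)).relIndex K ≠ 0 :=
    Subgroup.relIndex_ne_zero_trans (relIndex_zpowers_pow z q hq0) hz
  have h2 : Subgroup.zpowers (z ^ q) ≤ window G (vertical X f) 0 m := by
    rw [hq, Subgroup.zpowers_le]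
    exact pow_mem hl p
  intro hcon
  exact h1 (Subgroup.relIndex_eq_zero_of_le_left h2
    (Subgroup.relIndex_eq_zero_of_le_right (hle _ le_rfl) hcon))

/-- If common stabilisers of far apart nested halfspaces are virtually cyclic, then `G` contains
`ℤ × ℤ` or `X` is hyperbolic. -/
theorem z2_or_hyperbolic_of_cyclic (h : IsMedianGraph X) (hG : GeometricAction G X) (n : ℕ)
    (hcyc : ∀ A B : Set V, IsHalfspace X A → IsHalfspace X B → B ⊆ A →
      (∀ y ∉ A, ∀ z ∈ B, n ≤ X.dist y z) →
      ∃ z : G, (Subgroup.zpowers z).relIndex (commonStab G {A, B}) ≠ 0) :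
    (∃ φ : Multiplicative (ℤ × ℤ) →* G, Function.Injective φ) ∨ IsHyperbolic X :=
  z2_or_hyperbolic h hG fun _ hf => Or.inl (stabilizes_of_cyclic h hG n hcyc hf)

end Pool.Agent.Lib.MP_140312_al_Chain
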