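import Pool.Agent.Lib.MP_140312_al.Basic

/-!
# Definitions: common stabilisers of halfspaces
-/

namespace Pool.Agent.Lib.MP_140312_al_Chain

open Pool.Agent.Lib.MP_140312_al

variable {V : Type*}

/-- `A` is a halfspace of `X`: one of the two sides of a hyperplane, that is, the set of vertices
closer to `x` than to `y` for some edge `x y`. -/
def IsHalfspace (X : SimpleGraph V) (A : Set V) : Prop :=
  ∃ x y : V, X.Adj x y ∧ A = halfspace X x y

/-- The common stabiliser of a family of sets of vertices: the group elements that preserve every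
member of the family. -/
def commonStab (G : Type*) [Group G] [MulAction G V] (𝓗 : Set (Set V)) : Subgroup G where
  carrier := {g | ∀ A ∈ 𝓗, ∀ v : V, g • v ∈ A ↔ v ∈ A}
  mul_mem' {a b} ha hb A hA v := by rw [mul_smul, ha A hA, hb A hA]
  one_mem' A _ v := by rw [one_smul]
  inv_mem' {a} ha A hA v := by rw [← ha A hA, smul_inv_smul]

/-- The halfspace to the right of the `i`-th vertical hyperplane of the flat `f` (the hyperplane
between the columns `i` and `i + 1`). -/
def vertical (X : SimpleGraph V) (f : ℤ → ℤ → V) (i : ℤ) : Set V :=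
  halfspace X (f (i + 1) 0) (f i 0)

/-- The halfspace above the `j`-th horizontal hyperplane of the flat `f` (the hyperplane
between the rows `j` and `j + 1`). -/
def horizontal (X : SimpleGraph V) (f : ℤ → ℤ → V) (j : ℤ) : Set V :=
  halfspace X (f 0 (j + 1)) (f 0 j)

/-- The common stabiliser of `h i` for `|i - a| ≤ n`. -/
def window (G : Type*) [Group G] [MulAction G V] (h : ℤ → Set V) (a : ℤ) (n : ℕ) : Subgroup G :=
  commonStab G {A | ∃ i : ℤ, |i - a| ≤ n ∧ A = h i}

/-- The descending sequence of the common stabilisers of `h (-n), …, h n` is eventually constant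
up to finite index. -/
def Stabilizes (G : Type*) [Group G] [MulAction G V] (h : ℤ → Set V) : Prop :=
  ∃ n : ℕ, ∀ m : ℕ, n ≤ m → (window G h 0 m).relIndex (window G h 0 n) ≠ 0

/-- The descending chain condition up to finite index: for every sequence `h 0, h 1, …` of
halfspaces, the common stabiliser of `h 0, …, h (m - 1)` has finite index in that of
`h 0, …, h (n - 1)` for some `n` and all `m ≥ n`. -/
def ChainCondition (G : Type*) [Group G] [MulAction G V] (X : SimpleGraph V) : Prop :=
  ∀ h : ℕ → Set V, (∀ i, IsHalfspace X (h i)) → ∃ n : ℕ, ∀ m : ℕ, n ≤ m →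
    (commonStab G {A | ∃ i < m, A = h i}).relIndex (commonStab G {A | ∃ i < n, A = h i}) ≠ 0

end Pool.Agent.Lib.MP_140312_al_Chain
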