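import Pool.Agent.Lib.MP_140312_al_Chain.Defs
import Pool.Agent.Lib.MP_140312_al.Final

/-!
# Gates (projections to convex sets) in median graphs
-/

namespace Pool.Agent.Lib.MP_140312_al_Chain

open Pool.Agent.Lib.MP_140312_al

variable {V : Type*} {G : Type*} [Group G] [MulAction G V] {X : SimpleGraph V}

/-- `p` is the gate of `y` in `Z`. -/
def IsGate (X : SimpleGraph V) (Z : Set V) (y p : V) : Prop :=
  p ∈ Z ∧ ∀ z ∈ Z, X.dist y z = X.dist y p + X.dist p z

lemma exists_gate (h : IsMedianGraph X) {Z : Set V} (hZ : GConvex X Z) (hne : Z.Nonempty)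
    (y : V) : ∃ p, IsGate X Z y p := by
  have hc := h.connected
  classical
  have hex : ∃ d, ∃ p ∈ Z, X.dist y p = d := by
    obtain ⟨p, hp⟩ := hne
    exact ⟨_, p, hp, rfl⟩
  obtain ⟨p, hp, hpd⟩ := Nat.find_spec hex
  have hmin : ∀ q ∈ Z, X.dist y p ≤ X.dist y q := by
    intro q hq
    rw [hpd]
    exact Nat.find_min' hex ⟨q, hq, rfl⟩
  refine ⟨p, hp, fun z hz => ?_⟩
  obtain ⟨m, ⟨m1, m2, m3⟩, _⟩ := h.median y p z
  have hmZ : m ∈ Z := hZ p hp z hz m m2
  have h1 := hmin m hmZ
  have e1 : X.dist m p = X.dist p m := SimpleGraph.dist_comm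
  have h2 : X.dist p m = 0 := by omega
  rw [hc.dist_eq_zero_iff] at h2
  subst h2
  exact m3.symm

lemma IsGate.unique (h : IsMedianGraph X) {Z : Set V} {y p q : V} (hp : IsGate X Z y p)
    (hq : IsGate X Z y q) : p = q := by
  have h1 := hp.2 q hq.1
  have h2 := hq.2 p hp.1
  have e1 : X.dist q p = X.dist p q := SimpleGraph.dist_comm
  rw [← h.connected.dist_eq_zero_iff]
  omega

lemma IsGate.lipschitz (h : IsMedianGraph X) {Z : Set V} {y y' p p' : V} (hp : IsGate X Z y p)
    (hp' : IsGate X Z y' p') : X.dist p p' ≤ X.dist y y' := by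
  have hc := h.connected
  have h1 := hp.2 p' hp'.1
  have h2 := hp'.2 p hp.1
  have e1 : X.dist p' p = X.dist p p' := SimpleGraph.dist_comm
  have e2 : X.dist y' y = X.dist y y' := SimpleGraph.dist_comm
  have t1 : X.dist y p' ≤ X.dist y y' + X.dist y' p' := hc.dist_triangle
  have t2 : X.dist y' p ≤ X.dist y' y + X.dist y p := hc.dist_triangle
  omega

lemma IsGate.hausdorff (h : IsMedianGraph X) {Z Z' : Set V} {y p q p' q' : V} {ρ : ℕ}
    (hp : IsGate X Z y p) (hq : IsGate X Z' y q) (hp' : p' ∈ Z') (hpp' : X.dist p p' ≤ ρ)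
    (hq' : q' ∈ Z) (hqq' : X.dist q q' ≤ ρ) : X.dist p q ≤ 2 * ρ := by
  have hc := h.connected
  have h1 := hp.2 q' hq'
  have h2 := hq.2 p' hp'
  have t1 : X.dist y q' ≤ X.dist y q + X.dist q q' := hc.dist_triangle
  have t2 : X.dist y p' ≤ X.dist y p + X.dist p p' := hc.dist_triangle
  have t3 : X.dist p q ≤ X.dist p q' + X.dist q' q := hc.dist_triangle
  have t4 : X.dist q p ≤ X.dist q p' + X.dist p' p := hc.dist_triangle
  have e1 : X.dist q p = X.dist p q := SimpleGraph.dist_comm
  have e2 : X.dist q' q = X.dist q q' := SimpleGraph.dist_comm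
  have e3 : X.dist p' p = X.dist p p' := SimpleGraph.dist_comm
  omega

lemma IsGate.smul (hG : GeometricAction G X) (hc : X.Connected) {Z Z' : Set V} {y p : V} (g : G)
    (hZ : ∀ v, g • v ∈ Z' ↔ v ∈ Z) (hp : IsGate X Z y p) : IsGate X Z' (g • y) (g • p) := by
  refine ⟨(hZ p).2 hp.1, fun z hz => ?_⟩
  obtain ⟨w, rfl⟩ : ∃ w, z = g • w := ⟨g⁻¹ • z, by rw [smul_inv_smul]⟩
  rw [dist_smul hG hc, dist_smul hG hc, dist_smul hG hc]
  exact hp.2 w ((hZ w).1 hz)

/-- The gate of a point of the convex set `A` lies in `A` if `Z` meets `A`. -/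
lemma IsGate.mem_of_mem {Z A : Set V} (hA : GConvex X A) {y p : V} (hp : IsGate X Z y p)
    (hy : y ∈ A) (hne : (Z ∩ A).Nonempty) : p ∈ A := by
  obtain ⟨z, hz, hzA⟩ := hne
  exact hA y hy z hzA p (hp.2 z hz).symm

lemma gconvex_compl_halfspace (h : IsMedianGraph X) {x y : V} (hxy : X.Adj x y) :
    GConvex X (halfspace X x y)ᶜ := by
  rw [compl_halfspace h hxy]
  exact gconvex_halfspace h hxy.symm

/-- Gates of the ends of an edge whose hyperplane crosses `Z`. -/
lemma gate_edge (h : IsMedianGraph X) {Z : Set V} {x y p q : V} (hxy : X.Adj x y)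
    (hp : IsGate X Z x p) (hq : IsGate X Z y q) (h1 : (Z ∩ halfspace X x y).Nonempty)
    (h2 : (Z ∩ (halfspace X x y)ᶜ).Nonempty) :
    X.Adj p q ∧ halfspace X p q = halfspace X x y := by
  have hc := h.connected
  have hpm : p ∈ halfspace X x y :=
    hp.mem_of_mem (gconvex_halfspace h hxy) (mem_halfspace_left h hxy) h1
  have hqm : q ∈ (halfspace X x y)ᶜ := by
    refine hq.mem_of_mem (gconvex_compl_halfspace h hxy) ?_ h2
    rw [compl_halfspace h hxy]
    exact mem_halfspace_left h hxy.symm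
  have hne : p ≠ q := by
    rintro rfl
    exact hqm hpm
  have hd : X.dist p q ≤ 1 := by
    have := hp.lipschitz h hq
    rwa [SimpleGraph.dist_eq_one_iff_adj.2 hxy] at this
  have hpos := hc.pos_dist_of_ne hne
  have hadj : X.Adj p q := by
    rw [← SimpleGraph.dist_eq_one_iff_adj]
    omega
  exact ⟨hadj, halfspace_eq_of_crossing_edge h hxy _ p q hadj rfl hpm hqm⟩

/-- Edge transport: between two edges dual to the same hyperplane. -/
lemma edge_between (h : IsMedianGraph X) {v w v' w' m : V} (hvw : X.Adj v w)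
    (hvw' : X.Adj v' w') (heq : halfspace X v w = halfspace X v' w')
    (hm : X.dist v m + X.dist m v' = X.dist v v') :
    ∃ m', X.Adj m m' ∧ halfspace X m m' = halfspace X v w ∧
      X.dist w m' + X.dist m' w' = X.dist w w' := by
  have hc := h.connected
  have hvA : v ∈ halfspace X v w := mem_halfspace_left h hvw
  have hv'A : v' ∈ halfspace X v w := by rw [heq]; exact mem_halfspace_left h hvw'
  have hmA : m ∈ halfspace X v w := halfspace_convex h hvw hvA hv'A hm
  have hwA : w ∉ halfspace X v w := by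
    intro hw
    have h1 : X.dist w v < X.dist w w := hw
    simp at h1
  have hw'A : w' ∉ halfspace X v w := by
    rw [heq]
    intro hw
    have h1 : X.dist w' v' < X.dist w' w' := hw
    simp at h1
  obtain ⟨m', ⟨m1, m2, m3⟩, _⟩ := h.median w w' m
  -- distances
  have a1 : X.dist m v < X.dist m w := hmA
  have a2 : X.dist m v' < X.dist m w' := by
    have : m ∈ halfspace X v' w' := by rw [← heq]; exact hmA
    exact this
  have b1 := dist_adj_ne h hvw m
  have b2 := dist_adj_ne h hvw' m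
  have c1 : X.dist v v' < X.dist v w' := by
    have : v ∈ halfspace X v' w' := by rw [← heq]; exact hvA
    exact this
  have c2 := dist_adj_ne h hvw' v
  have c3 : ¬ X.dist w' v < X.dist w' w := hw'A
  have c4 := dist_adj_ne h hvw w'
  have e1 : X.dist w' v = X.dist v w' := SimpleGraph.dist_comm
  have e2 : X.dist w' w = X.dist w w' := SimpleGraph.dist_comm
  have e3 : X.dist m v = X.dist v m := SimpleGraph.dist_comm
  have e4 : X.dist m w = X.dist w m := SimpleGraph.dist_comm
  have e5 : X.dist m w' = X.dist w' m := SimpleGraph.dist_comm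
  have e6 : X.dist m' w' = X.dist w' m' := SimpleGraph.dist_comm
  have e7 : X.dist m m' = X.dist m' m := SimpleGraph.dist_comm
  have hmm' : X.Adj m m' := by
    rw [← SimpleGraph.dist_eq_one_iff_adj]
    omega
  have hm'A : m' ∈ (halfspace X v w)ᶜ :=
    gconvex_compl_halfspace h hvw w hwA w' hw'A m' m1
  exact ⟨m', hmm', halfspace_eq_of_crossing_edge h hvw _ m m' hmm' rfl hmA hm'A, m1⟩

end Pool.Agent.Lib.MP_140312_al_Chain
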