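import Pool.Agent.Lib.MP_140312_al_Chain.Converse

/-!
# Hyperbolicity and the chain conditions
-/

namespace Pool.Agent.Lib.MP_140312_al_Chain

open Pool.Agent.Lib.MP_140312_al

variable {V : Type*} {G : Type*} [Group G] [MulAction G V] {X : SimpleGraph V}

theorem main (h : IsMedianGraph X) (hG : GeometricAction G X)
    (hZ : ¬ ∃ φ : Multiplicative (ℤ × ℤ) →* G, Function.Injective φ) :
    [IsHyperbolic X, ChainCondition G X,
      ∀ f, IsFlat X f → Stabilizes G (vertical X f) ∨ Stabilizes G (horizontal X f)].TFAE := by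
  tfae_have 1 → 2 := chainCondition_of_isHyperbolic h hG
  tfae_have 2 → 3 := fun hcc f hf =>
    Or.inl (stabilizes_of_chainCondition hcc _ (isHalfspace_vertical hf))
  tfae_have 3 → 1 := fun hst => (z2_or_hyperbolic h hG hst).resolve_left hZ
  tfae_finish

end Pool.Agent.Lib.MP_140312_al_Chain
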