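import Pool.Agent.Lib.MP_140312_al_Chain.Windows

/-!
# Diagonally recurrent flats
-/

open Filter

namespace Pool.Agent.Lib.MP_140312_al_Chain

open Pool.Agent.Lib.MP_140312_al

attribute [local instance] Ultrafilter.add Ultrafilter.addSemigroup

variable {V : Type*} {G : Type*} [Group G] [MulAction G V] {X : SimpleGraph V}

lemma ultralimit' {ι A W : Type*} (U : Ultrafilter ι) (u : ι → A → W)
    (hK : ∀ a, ∃ K : Set W, K.Finite ∧ ∀ n, u n a ∈ K) :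
    ∃ w : A → W, ∀ a, ∀ᶠ n in (U : Filter ι), u n a = w a := by
  have : ∀ a, ∃ w : W, ∀ᶠ n in (U : Filter ι), u n a = w := by
    intro a
    obtain ⟨K, hK, h⟩ := hK a
    have h' : ∀ᶠ n in (U : Filter ι), ∃ w ∈ K, u n a = w :=
      Eventually.of_forall fun n => ⟨_, h n, rfl⟩
    rw [Ultrafilter.eventually_exists_mem_iff hK] at h'
    obtain ⟨w, _, hw⟩ := h'
    exact ⟨w, hw⟩
  choose w hw using this
  exact ⟨w, hw⟩

lemma exists_idempotent : ∃ U : Ultrafilter ℕ+, U + U = U ∧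
    ∀ S : Set ℕ+, S ∈ U → S.Infinite := by
  obtain ⟨U, hU, _⟩ := Hindman.exists_idempotent_ultrafilter_le_FS (fun _ : ℕ => (1 : ℕ+))
  refine ⟨U, hU, fun S hS hfin => ?_⟩
  obtain ⟨b, _, hb⟩ := Ultrafilter.eq_pure_of_finite_mem hfin hS
  have h1 : ∀ᶠ m in ((U + U : Ultrafilter ℕ+) : Filter ℕ+), m = b := by
    rw [hU, hb]
    simp
  rw [Ultrafilter.eventually_add, hb] at h1
  have h2 : b + b = b := by simpa using h1
  have h3 := congrArg PNat.val h2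
  rw [PNat.add_coe] at h3
  have := b.pos
  omega

/-- From any flat one gets a flat all of whose finite windows recur infinitely often along the
diagonal. -/
lemma exists_recurrent (hG : GeometricAction G X) (hc : X.Connected) {𝓕 : Set (ℤ → ℤ → V)}
    (h𝓕 : IsFlatFamily G X 𝓕) {f : ℤ → ℤ → V} (hf𝓕 : f ∈ 𝓕) :
    ∃ f₀ ∈ 𝓕, ∀ R : ℕ, {b : ℕ | ∃ g : G, ∀ i j : ℤ, |i| ≤ R → |j| ≤ R →
      g • f₀ i j = f₀ (i + b) (j + b)}.Infinite := by
  have hf := h𝓕.isFlat f hf𝓕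
  obtain ⟨U, hU, hUinf⟩ := exists_idempotent
  obtain ⟨D, hD, hcov⟩ := hG.cocompact
  choose γ hγ using fun b : ℕ+ => hcov (f (b : ℕ) (b : ℕ))
  obtain ⟨F, hF⟩ := ultralimit' U (fun (b : ℕ+) (a : ℤ × ℤ) => γ b • f (a.1 + (b : ℕ))
    (a.2 + (b : ℕ))) (fun a => ⟨⋃ x ∈ D, {y | X.dist x y ≤ a.1.natAbs + a.2.natAbs},
      hD.biUnion fun x _ => ball_finite hG hc x _, fun b => by
        simp only [Set.mem_iUnion]
        refine ⟨_, hγ b, ?_⟩
        show X.dist _ _ ≤ _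
        rw [dist_smul hG hc, hf]
        omega⟩)
  refine ⟨fun i j => F (i, j), ?_, fun R => ?_⟩
  · apply h𝓕.limit_mem
    intro n
    have h1 : ∀ᶠ b in (U : Filter ℕ+), ∀ a ∈ Finset.Icc (-(n : ℤ)) n ×ˢ
        Finset.Icc (-(n : ℤ)) n, γ b • f (a.1 + (b : ℕ)) (a.2 + (b : ℕ)) = F a := by
      rw [Filter.eventually_all_finset]
      intro a _
      exact hF a
    obtain ⟨b, hb⟩ := h1.exists
    refine ⟨_, h𝓕.smul_mem (γ b) _ (h𝓕.translate_mem (b : ℕ) (b : ℕ) f hf𝓕), ?_⟩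
    intro i j hi hj
    exact hb (i, j) (by
      simp only [Finset.mem_product, Finset.mem_Icc]
      omega)
  · have hbox : ∀ c : ℕ, ∀ᶠ b in (U : Filter ℕ+), ∀ a ∈ Finset.Icc (-(R : ℤ)) R ×ˢ
        Finset.Icc (-(R : ℤ)) R, γ b • f (a.1 + c + (b : ℕ)) (a.2 + c + (b : ℕ)) =
          F (a.1 + c, a.2 + c) := by
      intro c
      rw [Filter.eventually_all_finset]
      intro a _
      exact hF (a.1 + c, a.2 + c)
    have h0 := hbox 0
    have h1 : ∀ᶠ m in ((U + U : Ultrafilter ℕ+) : Filter ℕ+), ∀ a ∈ Finset.Icc (-(R : ℤ)) R ×ˢ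
        Finset.Icc (-(R : ℤ)) R, γ m • f (a.1 + (m : ℕ)) (a.2 + (m : ℕ)) = F a := by
      rw [hU]
      filter_upwards [h0] with b hb a ha
      have := hb a ha
      simpa using this
    rw [Ultrafilter.eventually_add] at h1
    have h2 := hUinf _ h1
    have h3 : (fun b : ℕ+ => (b : ℕ)) '' {b : ℕ+ | ∀ᶠ m' in (U : Filter ℕ+),
        ∀ a ∈ Finset.Icc (-(R : ℤ)) R ×ˢ Finset.Icc (-(R : ℤ)) R,
          γ (b + m') • f (a.1 + ((b + m' : ℕ+) : ℕ)) (a.2 + ((b + m' : ℕ+) : ℕ)) = F a} ⊆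
        {b : ℕ | ∃ g : G, ∀ i j : ℤ, |i| ≤ R → |j| ≤ R →
          g • F (i, j) = F (i + b, j + b)} := by
      rintro _ ⟨b, hb, rfl⟩
      have hb' : ∀ᶠ m' in (U : Filter ℕ+),
        ∀ a ∈ Finset.Icc (-(R : ℤ)) R ×ˢ Finset.Icc (-(R : ℤ)) R,
          γ (b + m') • f (a.1 + ((b + m' : ℕ+) : ℕ)) (a.2 + ((b + m' : ℕ+) : ℕ)) = F a := hb
      obtain ⟨m, hm1, hm2⟩ := (hb'.and (hbox b)).exists
      refine ⟨γ m * (γ (b + m))⁻¹, fun i j hi hj => ?_⟩
      have hmem : (i, j) ∈ Finset.Icc (-(R : ℤ)) R ×ˢ Finset.Icc (-(R : ℤ)) R := by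
        rw [abs_le] at hi hj
        simp only [Finset.mem_product, Finset.mem_Icc]
        omega
      have e1 := hm1 (i, j) hmem
      have e2 := hm2 (i, j) hmem
      rw [← e2, ← e1, mul_smul, inv_smul_smul, PNat.add_coe]
      congr 2 <;> push_cast <;> ring
    exact (h2.image PNat.coe_injective.injOn).mono h3

end Pool.Agent.Lib.MP_140312_al_Chain
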