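import Pool.Agent.Lib.MP_140312_al_Chain.Gates

/-!
# Rows: the vertices from which a path crosses prescribed hyperplanes
-/

namespace Pool.Agent.Lib.MP_140312_al_Chain

open Pool.Agent.Lib.MP_140312_al

variable {V : Type*} {G : Type*} [Group G] [MulAction G V] {X : SimpleGraph V}

/-- The vertices from which a path crosses the hyperplanes of `U 0, …, U (n - 1)` consecutively,
entering these halfspaces. -/
def Rows (X : SimpleGraph V) : ℕ → (ℕ → Set V) → Set V
  | 0, _ => Set.univ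
  | n + 1, U => {v | ∃ w, X.Adj v w ∧ halfspace X w v = U 0 ∧ w ∈ Rows X n (fun i => U (i + 1))}

lemma gconvex_rows (h : IsMedianGraph X) : ∀ (n : ℕ) (U : ℕ → Set V), GConvex X (Rows X n U) := by
  intro n
  induction n with
  | zero => intro U a _ b _ m _; trivial
  | succ n ih =>
    intro U v hv v' hv' m hm
    obtain ⟨w, hvw, hw, hwR⟩ := hv
    obtain ⟨w', hvw', hw', hwR'⟩ := hv'
    have heq : halfspace X v w = halfspace X v' w' := by
      rw [← compl_halfspace h hvw.symm, ← compl_halfspace h hvw'.symm, hw, hw']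
    obtain ⟨m', hmm', hm', hbet⟩ := edge_between h hvw hvw' heq hm
    refine ⟨m', hmm', ?_, ih _ w hwR w' hwR' m' hbet⟩
    rw [← hw, ← compl_halfspace h hmm', hm', compl_halfspace h hvw]

lemma mem_rows_iff (n : ℕ) (U : ℕ → Set V) (v : V) : v ∈ Rows X n U ↔
    ∃ r : ℕ → V, r 0 = v ∧ ∀ i < n, X.Adj (r i) (r (i + 1)) ∧
      halfspace X (r (i + 1)) (r i) = U i := by
  induction n generalizing U v with
  | zero =>
    constructor
    · intro _
      exact ⟨fun _ => v, rfl, fun i hi => absurd hi (Nat.not_lt_zero i)⟩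
    · intro _
      trivial
  | succ n ih =>
    constructor
    · rintro ⟨w, hvw, hw, hwR⟩
      obtain ⟨r, hr0, hr⟩ := (ih _ _).1 hwR
      refine ⟨fun i => if i = 0 then v else r (i - 1), by simp, ?_⟩
      intro i hi
      rcases i with _ | i
      · simp only [hr0, if_true, zero_add, Nat.sub_self]
        refine ⟨?_, ?_⟩
        · simpa using hvw
        · simpa using hw
      · simpa using hr i (by omega)
    · rintro ⟨r, rfl, hr⟩
      refine ⟨r 1, (hr 0 (by omega)).1, (hr 0 (by omega)).2, (ih _ _).2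
        ⟨fun i => r (i + 1), rfl, fun i hi => ?_⟩⟩
      exact hr (i + 1) (by omega)

lemma smul_halfspace_iff (hG : GeometricAction G X) (hc : X.Connected) (g : G) (x y : V)
    {A : Set V} (hA : halfspace X (g • x) (g • y) = A) (v : V) :
    g • v ∈ A ↔ v ∈ halfspace X x y := by
  rw [← hA]
  exact smul_mem_halfspace hG hc g x y v

/-- Moving rows by a group element. -/
lemma smul_rows (hG : GeometricAction G X) (hc : X.Connected) (n : ℕ) (U U' : ℕ → Set V) (g : G)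
    (hU : ∀ i < n, ∀ v, g • v ∈ U' i ↔ v ∈ U i) (v : V) :
    g • v ∈ Rows X n U' ↔ v ∈ Rows X n U := by
  have key : ∀ (k : G) (W W' : ℕ → Set V), (∀ i < n, ∀ v, k • v ∈ W' i ↔ v ∈ W i) →
      ∀ v, v ∈ Rows X n W → k • v ∈ Rows X n W' := by
    intro k W W' hW v hv
    rw [mem_rows_iff] at hv ⊢
    obtain ⟨r, hr0, hr⟩ := hv
    refine ⟨fun i => k • r i, by simp [hr0], fun i hi => ?_⟩
    obtain ⟨h1, h2⟩ := hr i hi
    refine ⟨(hG.adj_iff k _ _).2 h1, ?_⟩
    ext w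
    obtain ⟨w, rfl⟩ : ∃ w', w = k • w' := ⟨k⁻¹ • w, by rw [smul_inv_smul]⟩
    rw [smul_mem_halfspace hG hc, h2, hW i hi]
  constructor
  · intro hv
    have := key g⁻¹ U' U (fun i hi w => by rw [← hU i hi, smul_inv_smul]) _ hv
    rwa [inv_smul_smul] at this
  · exact key g U U' hU v

lemma exists_finite_reps {α β : Type*} [Finite β] (S : Set α) (φ : α → β) :
    ∃ F ⊆ S, F.Finite ∧ ∀ a ∈ S, ∃ b ∈ F, φ b = φ a := by
  obtain ⟨F, hF, hbij⟩ := (Set.surjOn_image φ S).exists_bijOn_subset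
  refine ⟨F, hF, ?_, fun a ha => ?_⟩
  · exact (hbij.finite_iff_finite).2 (Set.toFinite _)
  · obtain ⟨b, hb, hba⟩ := hbij.surjOn (Set.mem_image_of_mem φ ha)
    exact ⟨b, hb, hba⟩

/-- The common stabiliser acts cocompactly on the set of rows. -/
lemma rows_cocompact (hG : GeometricAction G X) (hc : X.Connected) (n : ℕ) (U : ℕ → Set V) :
    ∃ F ⊆ Rows X n U, F.Finite ∧ ∀ v ∈ Rows X n U,
      ∃ k ∈ commonStab G {A | ∃ i < n, A = U i}, k • v ∈ F := by
  classical
  obtain ⟨D, hD, hcov⟩ := hG.cocompact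
  set B : Set V := ⋃ x ∈ D, {y | X.dist x y ≤ n} with hB
  have hBf : B.Finite := hD.biUnion fun x _ => ball_finite hG hc x n
  have : Finite B := hBf
  have hrow : ∀ v : V, ∃ r : ℕ → V, v ∈ Rows X n U → r 0 = v ∧ ∀ i < n, X.Adj (r i) (r (i + 1)) ∧
      halfspace X (r (i + 1)) (r i) = U i := by
    intro v
    by_cases hv : v ∈ Rows X n U
    · obtain ⟨r, hr⟩ := (mem_rows_iff n U v).1 hv
      exact ⟨r, fun _ => hr⟩
    · exact ⟨fun _ => v, fun h => absurd h hv⟩
  choose r hr using hrow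
  choose g hg using hcov
  have hdist : ∀ v ∈ Rows X n U, ∀ i ≤ n, X.dist v (r v i) ≤ i := by
    intro v hv i
    induction i with
    | zero => intro _; rw [(hr v hv).1]; simp
    | succ i ih =>
      intro hi
      have h1 := ih (by omega)
      have h2 := SimpleGraph.dist_eq_one_iff_adj.2 ((hr v hv).2 i (by omega)).1
      have h3 : X.dist v (r v (i + 1)) ≤ X.dist v (r v i) + X.dist (r v i) (r v (i + 1)) :=
        hc.dist_triangle
      omega
  let φ : Rows X n U → (Fin (n + 1) → B) := fun v i => ⟨g v • r v i, by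
    simp only [hB, Set.mem_iUnion]
    refine ⟨g v • v, hg v, ?_⟩
    show X.dist _ _ ≤ n
    rw [dist_smul hG hc]
    exact (hdist v v.2 i (by omega)).trans (by omega)⟩
  obtain ⟨F, _, hF, hFr⟩ := exists_finite_reps Set.univ φ
  refine ⟨Subtype.val '' F, ?_, hF.image _, fun v hv => ?_⟩
  · rintro _ ⟨v, _, rfl⟩
    exact v.2
  obtain ⟨w, hw, hwv⟩ := hFr ⟨v, hv⟩ trivial
  have hval : ∀ i ≤ n, g w • r w i = g v • r v i := by
    intro i hi
    have := congrArg Subtype.val (congrFun hwv ⟨i, by omega⟩)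
    simpa [φ] using this
  have hval' : ∀ i ≤ n, ((g w)⁻¹ * g v) • r v i = r w i := by
    intro i hi
    rw [mul_smul, ← hval i hi, inv_smul_smul]
  refine ⟨(g w)⁻¹ * g v, ?_, ⟨w, hw, ?_⟩⟩
  · rintro A ⟨i, hi, rfl⟩ u
    have h1 := ((hr v hv).2 i hi).2
    have h2 := ((hr w w.2).2 i hi).2
    have h3 := smul_halfspace_iff hG hc ((g w)⁻¹ * g v) (r v (i + 1)) (r v i) (A := U i) (by
      rw [hval' _ (by omega), hval' _ (by omega), h2]) u
    rw [h3, h1]
  · have := hval' 0 (by omega)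
    rw [(hr v hv).1, (hr w w.2).1] at this
    exact this.symm

/-- Right coset representatives of a subgroup of finite index. -/
lemma exists_coset_reps {H K : Subgroup G} (hHK : H.relIndex K ≠ 0) :
    ∃ S : Set G, S.Finite ∧ ∀ k ∈ K, ∃ s ∈ S, ∃ m ∈ H ⊓ K, k = m * s := by
  have hfi : (H.subgroupOf K).FiniteIndex := ⟨hHK⟩
  have hfin : Finite (K ⧸ H.subgroupOf K) := Subgroup.finite_quotient_of_finiteIndex
  refine ⟨Set.range fun q : K ⧸ H.subgroupOf K => ((Quotient.out q : K) : G)⁻¹,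
    Set.finite_range _, fun k hk => ?_⟩
  obtain ⟨t, ht⟩ := QuotientGroup.mk_out_eq_mul (H.subgroupOf K) (⟨k, hk⟩⁻¹ : K)
  refine ⟨_, ⟨QuotientGroup.mk (⟨k, hk⟩⁻¹ : K), rfl⟩, ((t : K) : G), ⟨t.2, (t : K).2⟩, ?_⟩
  have h2 : (Quotient.out (QuotientGroup.mk (⟨k, hk⟩⁻¹ : K) : K ⧸ H.subgroupOf K) : K) =
      ⟨k, hk⟩⁻¹ * (t : K) := ht
  beta_reduce
  rw [h2]
  push_cast
  group

/-- If a finite index subgroup of the group `L` acting cocompactly on `Z` preserves `Z'`, then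
`Z` is contained in a bounded neighbourhood of `Z'`. -/
lemma exists_dist_bound (hG : GeometricAction G X) (hc : X.Connected) {Z Z' : Set V}
    {L L' : Subgroup G} (hZ' : ∀ k ∈ L', ∀ v ∈ Z', k • v ∈ Z') (hne : Z'.Nonempty)
    {F : Set V} (hF : F.Finite) (hcov : ∀ v ∈ Z, ∃ k ∈ L, k • v ∈ F)
    (hfi : L'.relIndex L ≠ 0) : ∃ ρ : ℕ, ∀ z ∈ Z, ∃ z' ∈ Z', X.dist z z' ≤ ρ := by
  obtain ⟨S, hS, hSc⟩ := exists_coset_reps hfi
  obtain ⟨z₀, hz₀⟩ := hne
  obtain ⟨ρ, hρ⟩ := ((hS.prod hF).image (fun p : G × V => X.dist (p.1 • p.2) z₀)).bddAbove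
  refine ⟨ρ, fun z hz => ?_⟩
  obtain ⟨k, hk, hkF⟩ := hcov z hz
  obtain ⟨s, hs, m, hm, hks⟩ := hSc k⁻¹ (inv_mem hk)
  refine ⟨m • z₀, hZ' m hm.1 z₀ hz₀, ?_⟩
  have h1 : z = m • s • (k • z) := by
    rw [← mul_smul, ← hks, inv_smul_smul]
  rw [h1, dist_smul hG hc]
  exact hρ ⟨(s, k • z), ⟨hs, hkF⟩, rfl⟩

end Pool.Agent.Lib.MP_140312_al_Chain
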