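import Pool.Agent.Lib.MP_140312_al_Chain.Rows
import Pool.Agent.Lib.MP_140312_al.Periodic
import Pool.Agent.Lib.MP_140312_al.Hyperbolic

/-!
# Skewered halfspaces, vertical halfspaces of flats
-/

namespace Pool.Agent.Lib.MP_140312_al_Chain

open Pool.Agent.Lib.MP_140312_al

variable {V : Type*} {G : Type*} [Group G] [MulAction G V] {X : SimpleGraph V}

lemma exists_crossing_edge (hc : X.Connected) {A : Set V} : ∀ (n : ℕ) (w z : V),
    X.dist w z = n → w ∉ A → z ∈ A →
      ∃ w'' w', X.Adj w'' w' ∧ w'' ∉ A ∧ w' ∈ A ∧ X.dist w' z + 1 ≤ X.dist w z := by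
  intro n
  induction n with
  | zero =>
    intro w z hd hw hz
    rw [hc.dist_eq_zero_iff] at hd
    rw [hd] at hw
    exact absurd hz hw
  | succ n ih =>
    intro w z hd hw hz
    obtain ⟨w₁, hw₁, hd₁⟩ := exists_step hc hd
    by_cases h1 : w₁ ∈ A
    · exact ⟨w, w₁, hw₁, hw, h1, by omega⟩
    · obtain ⟨w'', w', h2, h3, h4, h5⟩ := ih w₁ z hd₁ h1 hz
      exact ⟨w'', w', h2, h3, h4, by omega⟩

/-- Points on the two sides of `k + 1` nested translates of a skewered halfspace are at distance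
at least `k + 1`. -/
lemma dist_of_skewer (h : IsMedianGraph X) (hG : GeometricAction G X) {x y : V} (hxy : X.Adj x y)
    {u : G} (hu : ∀ v ∈ halfspace X x y, u • v ∈ halfspace X x y) {v₁ : V}
    (hv₁ : v₁ ∈ halfspace X x y) (hv₁' : u⁻¹ • v₁ ∉ halfspace X x y) :
    ∀ (k : ℕ) (w z : V), w ∉ halfspace X x y → (u ^ k)⁻¹ • z ∈ halfspace X x y →
      k + 1 ≤ X.dist w z := by
  have hc := h.connected
  intro k
  induction k with
  | zero =>
    intro w z hw hz
    rw [pow_zero, inv_one, one_smul] at hz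
    have hne : w ≠ z := by
      rintro rfl
      exact hw hz
    exact hc.pos_dist_of_ne hne
  | succ k ih =>
    intro w z hw hz
    have hpow : ∀ (j : ℕ) v, v ∈ halfspace X x y → u ^ j • v ∈ halfspace X x y := by
      intro j
      induction j with
      | zero => intro v hv; simpa using hv
      | succ j ihj =>
        intro v hv
        rw [pow_succ, mul_smul]
        exact ihj _ (hu v hv)
    have hzA : z ∈ halfspace X x y := by
      have := hpow (k + 1) _ hz
      rwa [smul_inv_smul] at this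
    obtain ⟨w'', w', hadj, hw'', hw', hd⟩ := exists_crossing_edge hc _ w z rfl hw hzA
    have hw'u : u⁻¹ • w' ∉ halfspace X x y := by
      intro hcon
      -- the edge crosses both hyperplanes
      have e1 := halfspace_eq_of_crossing_edge h hxy _ w' w'' hadj.symm rfl hw' hw''
      have hadj' : X.Adj (u⁻¹ • w') (u⁻¹ • w'') := (hG.adj_iff _ _ _).2 hadj.symm
      have hw''u : u⁻¹ • w'' ∉ halfspace X x y := by
        intro hcon'
        apply hw''
        have := hu _ hcon'
        rwa [smul_inv_smul] at this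
      have e2 := halfspace_eq_of_crossing_edge h hxy _ _ _ hadj' rfl hcon hw''u
      apply hv₁'
      rw [← e2]
      rw [smul_mem_halfspace hG hc, e1]
      exact hv₁
    have := ih (u⁻¹ • w') (u⁻¹ • z) hw'u (by
      rw [← mul_smul, ← mul_inv_rev, ← pow_succ']
      exact hz)
    rw [dist_smul hG hc] at this
    omega

/-- A hyperplane skewered by an element preserving `Z` crosses `Z`. -/
lemma crosses_of_skewer (h : IsMedianGraph X) (hG : GeometricAction G X) {x y : V}
    (hxy : X.Adj x y) {u : G} (hu : ∀ v ∈ halfspace X x y, u • v ∈ halfspace X x y) {v₁ : V}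
    (hv₁ : v₁ ∈ halfspace X x y) (hv₁' : u⁻¹ • v₁ ∉ halfspace X x y) {Z : Set V}
    (hne : Z.Nonempty) (hZ : ∀ v, u • v ∈ Z ↔ v ∈ Z) :
    (Z ∩ halfspace X x y).Nonempty ∧ (Z ∩ (halfspace X x y)ᶜ).Nonempty := by
  have hc := h.connected
  obtain ⟨z, hz⟩ := hne
  have hZp : ∀ (k : ℕ) v, u ^ k • v ∈ Z ↔ v ∈ Z := by
    intro k
    induction k with
    | zero => intro v; simp
    | succ k ih => intro v; rw [pow_succ, mul_smul, ih, hZ]
  constructor
  · by_contra hcon
    have h1 : ∀ k : ℕ, u ^ k • z ∉ halfspace X x y := fun k hk =>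
      hcon ⟨u ^ k • z, (hZp k z).2 hz, hk⟩
    have h2 := dist_of_skewer h hG hxy hu hv₁ hv₁' (X.dist z v₁) (u ^ (X.dist z v₁) • z)
      (u ^ (X.dist z v₁) • v₁) (h1 _) (by rw [inv_smul_smul]; exact hv₁)
    rw [dist_smul hG hc] at h2
    omega
  · by_contra hcon
    have h1 : ∀ k : ℕ, (u ^ k)⁻¹ • z ∈ halfspace X x y := by
      intro k
      by_contra hk
      refine hcon ⟨(u ^ k)⁻¹ • z, ?_, hk⟩
      rw [← hZp k, smul_inv_smul]
      exact hz
    have h2 := dist_of_skewer h hG hxy hu hv₁ hv₁' (X.dist (u⁻¹ • v₁) z) (u⁻¹ • v₁) z hv₁' (h1 _)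
    omega

/-! ### Vertical halfspaces of flats -/

lemma mem_vertical (_h : IsMedianGraph X) {f : ℤ → ℤ → V} (hf : IsFlat X f) (i j i' : ℤ) :
    f i j ∈ vertical X f i' ↔ i' < i := by
  show X.dist _ _ < X.dist _ _ ↔ _
  rw [hf, hf]
  omega

lemma vertical_eq (h : IsMedianGraph X) {f : ℤ → ℤ → V} (hf : IsFlat X f) (i j : ℤ) :
    halfspace X (f (i + 1) j) (f i j) = vertical X f i :=
  flat_halfspace h hf i j

lemma crossing_vertical (h : IsMedianGraph X) {f : ℤ → ℤ → V} (hf : IsFlat X f) {i i' : ℤ}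
    (hii' : i < i') (hn : ¬ vertical X f i' ⊆ vertical X f i) :
    Crossing (vertical X f i) (vertical X f i') := by
  rw [Set.not_subset] at hn
  obtain ⟨v, hv1, hv2⟩ := hn
  refine ⟨⟨f (i' + 1) 0, ?_, ?_⟩, ⟨f (i + 1) 0, ?_, ?_⟩, ⟨v, hv2, hv1⟩, ⟨f i 0, ?_, ?_⟩⟩
  · rw [mem_vertical h hf]; omega
  · rw [mem_vertical h hf]; omega
  · rw [mem_vertical h hf]; omega
  · rw [Set.mem_compl_iff, mem_vertical h hf]; omega
  · rw [Set.mem_compl_iff, mem_vertical h hf]; omega
  · rw [Set.mem_compl_iff, mem_vertical h hf]; omega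

lemma adj_vertical {f : ℤ → ℤ → V} (hf : IsFlat X f) (i j : ℤ) :
    X.Adj (f (i + 1) j) (f i j) := by
  rw [← SimpleGraph.dist_eq_one_iff_adj, SimpleGraph.dist_comm]
  exact hf.dist_right _ _

lemma adj_horizontal {f : ℤ → ℤ → V} (hf : IsFlat X f) (i j : ℤ) :
    X.Adj (f i (j + 1)) (f i j) := by
  rw [← SimpleGraph.dist_eq_one_iff_adj, SimpleGraph.dist_comm]
  exact hf.dist_up _ _

/-- Among the vertical halfspaces of a flat along a strictly increasing sequence there is an
infinite nested subsequence. -/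
lemma exists_nested (h : IsMedianGraph X) (hG : GeometricAction G X) {f : ℤ → ℤ → V}
    (hf : IsFlat X f) (b : ℕ → ℤ) (hb : StrictMono b) :
    ∃ g : ℕ → ℕ, StrictMono g ∧
      ∀ m n, m < n → vertical X f (b (g n)) ⊆ vertical X f (b (g m)) := by
  obtain ⟨d, hd⟩ := exists_dimLE h hG
  have htr : IsTrans (Set V) (fun A B => B ⊆ A) := ⟨fun A B C h1 h2 => h2.trans h1⟩
  obtain ⟨g, hg | hg⟩ := exists_increasing_or_nonincreasing_subseq (fun A B : Set V => B ⊆ A)
    (fun k => vertical X f (b k))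
  · exact ⟨g, g.strictMono, hg⟩
  · exfalso
    obtain ⟨k, _, l, _, hkl, hcr⟩ := exists_not_crossing hd Set.univ Set.infinite_univ
      (fun k => f (b (g k) + 1) 0) (fun k => f (b (g k)) 0) (fun k => adj_vertical hf _ _)
    exact hcr (crossing_vertical h hf (hb (g.strictMono hkl)) (hg k l hkl))

/-- The flat with rows and columns exchanged. -/
def flip (f : ℤ → ℤ → V) : ℤ → ℤ → V := fun i j => f j i

lemma isFlat_flip {f : ℤ → ℤ → V} (hf : IsFlat X f) : IsFlat X (flip f) := by
  intro i j i' j'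
  show X.dist (f j i) (f j' i') = _
  rw [hf, add_comm]

lemma horizontal_eq_vertical_flip (f : ℤ → ℤ → V) (j : ℤ) :
    horizontal X f j = vertical X (flip f) j := rfl

end Pool.Agent.Lib.MP_140312_al_Chain
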