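import Pool.Agent.Lib.MP_140312_al_Chain.Skewer

/-!
# Commensurable windows of vertical hyperplanes give `ℤ × ℤ`
-/

namespace Pool.Agent.Lib.MP_140312_al_Chain

open Pool.Agent.Lib.MP_140312_al

variable {V : Type*} {G : Type*} [Group G] [MulAction G V] {X : SimpleGraph V}

lemma smul_vertical (h : IsMedianGraph X) (hG : GeometricAction G X) {f f' : ℤ → ℤ → V}
    (hf : IsFlat X f) (hf' : IsFlat X f') {g : G} {i i' j j' : ℤ} (h1 : g • f i j = f' i' j')
    (h2 : g • f (i + 1) j = f' (i' + 1) j') (v : V) :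
    g • v ∈ vertical X f' i' ↔ v ∈ vertical X f i := by
  rw [← vertical_eq h hf i j]
  apply smul_halfspace_iff hG h.connected
  rw [h1, h2, vertical_eq h hf']

lemma mem_commonStab {𝓗 : Set (Set V)} {g : G} :
    g ∈ commonStab G 𝓗 ↔ ∀ A ∈ 𝓗, ∀ v : V, g • v ∈ A ↔ v ∈ A := Iff.rfl

lemma mem_window {hh : ℤ → Set V} {a : ℤ} {n : ℕ} {g : G} :
    g ∈ window G hh a n ↔ ∀ i : ℤ, |i - a| ≤ n → ∀ v : V, g • v ∈ hh i ↔ v ∈ hh i := by
  constructor
  · intro hg i hi
    exact hg (hh i) ⟨i, hi, rfl⟩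
  · rintro hg A ⟨i, hi, rfl⟩
    exact hg i hi

lemma window_eq (hh : ℤ → Set V) (a : ℤ) (n : ℕ) :
    window G hh a n = commonStab G {A | ∃ i < 2 * n + 1, A = hh (a - n + i)} := by
  ext g
  rw [mem_window, mem_commonStab]
  constructor
  · rintro hg A ⟨i, hi, rfl⟩
    apply hg
    rw [abs_le]
    omega
  · intro hg i hi
    rw [abs_le] at hi
    have := hg (hh (a - n + ((i - (a - n)).toNat : ℕ))) ⟨(i - (a - n)).toNat, by omega, rfl⟩
    rwa [show a - n + (((i - (a - n)).toNat : ℕ) : ℤ) = i by omega] at this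

/-- In the common stabiliser of a window there are elements skewering horizontal hyperplanes. -/
lemma exists_vertical_shift (h : IsMedianGraph X) (hG : GeometricAction G X) {f : ℤ → ℤ → V}
    (hf : IsFlat X f) (a : ℤ) (n M : ℕ) : ∃ σ τ : ℕ, M ≤ σ ∧ σ < τ ∧
      ∃ l ∈ window G (vertical X f) a n, l • f (a - n) σ = f (a - n) τ ∧
        l • f (a - n) (σ + 1) = f (a - n) (τ + 1) ∧
        horizontal X f τ ⊆ horizontal X f σ := by
  have hc := h.connected
  obtain ⟨d, hd⟩ := exists_dimLE h hG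
  obtain ⟨T, hTS, hTinf, hT⟩ := pigeonhole_infinite hG hc (κ := Fin (2 * n + 2) × Fin 2)
    (0, 0) (2 * n + 2) {k | M ≤ k} (Set.infinite_of_injective_forall_mem
      (f := fun k => M + k) (add_right_injective M) (fun k => by simp))
    (fun k b => f (a - n + (b.1 : ℕ)) (k + (b.2 : ℕ))) (by
      rintro k ⟨a1, a2⟩
      rw [hf]
      have h1 := a1.2
      have h2 := a2.2
      simp only [Fin.val_zero]
      omega)
  obtain ⟨k, hk, l, hl, hkl, hcr⟩ := exists_not_crossing hd T hTinf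
    (fun k => flip f (k + 1) 0) (fun k => flip f k 0) (fun k => adj_vertical (isFlat_flip hf) _ _)
  obtain ⟨g, hg⟩ := hT k hk l hl
  have hg0 : ∀ i : ℤ, a - n ≤ i → i ≤ a + n + 1 → g • f i k = f i l := by
    intro i h1 h2
    have := hg (⟨(i - (a - n)).toNat, by omega⟩, 0)
    simp only [Fin.val_zero, Nat.cast_zero, add_zero] at this
    rwa [show a - n + (((i - (a - n)).toNat : ℕ) : ℤ) = i by omega] at this
  have hg1 : g • f (a - n) (k + 1) = f (a - n) (l + 1) := by
    have := hg (⟨0, by omega⟩, 1)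
    simpa using this
  refine ⟨k, l, hTS hk, hkl, g, ?_, hg0 _ le_rfl (by omega), hg1, ?_⟩
  · rw [mem_window]
    intro i hi
    rw [abs_le] at hi
    exact smul_vertical h hG hf hf (hg0 i (by omega) (by omega)) (hg0 (i + 1) (by omega) (by omega))
  · by_contra hcon
    exact hcr (crossing_vertical h (isFlat_flip hf) (by exact_mod_cast hkl) hcon)

/-- The main step. -/
lemma z2_of_shift (h : IsMedianGraph X) (hG : GeometricAction G X) {f : ℤ → ℤ → V}
    (hf : IsFlat X f) (n : ℕ) {a b : ℤ} (hab : a < b) {σ σ' : ℤ} (hσ : σ < σ') {g : G}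
    (hg : ∀ i : ℤ, a - n ≤ i → i ≤ a + n + 1 → g • f i σ = f (i + (b - a)) σ')
    (hg' : g • f (a - n) (σ + 1) = f (b - n) (σ' + 1))
    (hV : vertical X f (b - n) ⊆ vertical X f (a - n))
    (hW : horizontal X f σ' ⊆ horizontal X f σ)
    {l : G} (hl : l ∈ window G (vertical X f) a n) {τ : ℤ} (hτ : σ < τ)
    (hl1 : l • f (a - n) σ = f (a - n) τ) (hl2 : l • f (a - n) (σ + 1) = f (a - n) (τ + 1))
    (hlW : horizontal X f τ ⊆ horizontal X f σ)
    (hab1 : (window G (vertical X f) a n).relIndex (window G (vertical X f) b n) ≠ 0)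
    (hab2 : (window G (vertical X f) b n).relIndex (window G (vertical X f) a n) ≠ 0) :
    ∃ φ : Multiplicative (ℤ × ℤ) →* G, Function.Injective φ := by
  have hc := h.connected
  set L := window G (vertical X f) a n with hL
  set L' := window G (vertical X f) b n with hL'
  set U : ℕ → Set V := fun i => vertical X f (a - n + i) with hU
  set U' : ℕ → Set V := fun i => vertical X f (b - n + i) with hU'
  have hLeq : L = commonStab G {A | ∃ i < 2 * n + 1, A = U i} := window_eq _ a n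
  have hLeq' : L' = commonStab G {A | ∃ i < 2 * n + 1, A = U' i} := window_eq _ b n
  set Z := Rows X (2 * n + 1) U with hZ
  set Z' := Rows X (2 * n + 1) U' with hZ'
  -- `g` maps `U` to `U'`
  have hgU : ∀ i < 2 * n + 1, ∀ v, g • v ∈ U' i ↔ v ∈ U i := by
    intro i hi v
    apply smul_vertical h hG hf hf (j := σ) (j' := σ')
    · rw [hg _ (by omega) (by omega)]
      congr 1
      omega
    · rw [hg _ (by omega) (by omega)]
      congr 1
      omega
  have hgZ : ∀ v, g • v ∈ Z' ↔ v ∈ Z := smul_rows hG hc _ U U' g hgU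
  have hLZ : ∀ k ∈ L, ∀ v, k • v ∈ Z ↔ v ∈ Z := by
    intro k hk
    apply smul_rows hG hc
    intro i hi
    rw [hLeq] at hk
    exact hk _ ⟨i, hi, rfl⟩
  have hLZ' : ∀ k ∈ L', ∀ v, k • v ∈ Z' ↔ v ∈ Z' := by
    intro k hk
    apply smul_rows hG hc
    intro i hi
    rw [hLeq'] at hk
    exact hk _ ⟨i, hi, rfl⟩
  have hgL : ∀ k ∈ L, g * k * g⁻¹ ∈ L' := by
    intro k hk
    rw [hLeq'] 
    rw [hLeq] at hk
    rintro A ⟨i, hi, rfl⟩ v
    have h1 := hk (U i) ⟨i, hi, rfl⟩ (g⁻¹ • v)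
    rw [mul_smul, mul_smul, hgU i hi, h1, ← hgU i hi, smul_inv_smul]
  -- powers of conjugates lie in `L`
  have hpow : ∀ (j : ℕ) (k : G), k ∈ L → ∃ m : ℕ, 0 < m ∧ g ^ j * k ^ m * (g ^ j)⁻¹ ∈ L := by
    intro j
    induction j with
    | zero => intro k hk; exact ⟨1, one_pos, by simpa using hk⟩
    | succ j ih =>
      intro k hk
      obtain ⟨m, hm, _, hmL⟩ := Subgroup.exists_pow_mem_of_relIndex_ne_zero hab1 (hgL k hk)
      obtain ⟨m', hm', hmL'⟩ := ih _ hmL.1
      refine ⟨m * m', Nat.mul_pos hm hm', ?_⟩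
      convert hmL' using 1
      rw [conj_pow, conj_pow, ← pow_mul, pow_succ]
      group
  -- the base point
  set p := f (a - n) σ with hp
  set q := f (a - n) (σ + 1) with hq
  have hqp : X.Adj q p := adj_horizontal hf _ _
  have hpZ : p ∈ Z := by
    rw [hZ, mem_rows_iff]
    refine ⟨fun i => f (a - n + i) σ, by simp [hp], fun i hi => ⟨?_, ?_⟩⟩
    · have := (adj_vertical hf (a - n + i) σ).symm
      push_cast
      rwa [← add_assoc]
    · have := vertical_eq h hf (a - n + i) σ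
      push_cast
      rwa [← add_assoc]
  -- `W = halfspace X q p` is the horizontal halfspace
  have hWeq : halfspace X q p = horizontal X f σ :=
    vertical_eq h (isFlat_flip hf) σ (a - n)
  have hWeq' : halfspace X (f (b - n) (σ' + 1)) (f (b - n) σ') = horizontal X f σ' :=
    vertical_eq h (isFlat_flip hf) σ' (b - n)
  have hWeqτ : halfspace X (f (a - n) (τ + 1)) (f (a - n) τ) = horizontal X f τ :=
    vertical_eq h (isFlat_flip hf) τ (a - n)
  have hgp : g • p = f (b - n) σ' := by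
    rw [hp, hg _ le_rfl (by omega)]
    congr 1
    omega
  have hgW : ∀ v, g • v ∈ horizontal X f σ' ↔ v ∈ halfspace X q p := by
    intro v
    apply smul_halfspace_iff hG hc
    rw [hgp, hg', hWeq']
  have hlW' : ∀ v, l • v ∈ horizontal X f τ ↔ v ∈ halfspace X q p := by
    intro v
    apply smul_halfspace_iff hG hc
    rw [hl1, hl2, hWeqτ]
  have hgWW : ∀ v ∈ halfspace X q p, g • v ∈ halfspace X q p := by
    intro v hv
    rw [hWeq]
    exact hW ((hgW v).2 hv)
  have hlWW : ∀ v ∈ halfspace X q p, l • v ∈ halfspace X q p := by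
    intro v hv
    rw [hWeq]
    exact hlW ((hlW' v).2 hv)
  have hqW : q ∈ halfspace X q p := mem_halfspace_left h hqp
  have hlq : l⁻¹ • q ∉ halfspace X q p := by
    rw [← hlW', smul_inv_smul, horizontal_eq_vertical_flip]
    have := mem_vertical h (isFlat_flip hf) (σ + 1) (a - n) τ
    rw [show flip f (σ + 1) (a - n) = q from rfl] at this
    rw [this]
    omega
  have hgq : g⁻¹ • q ∉ halfspace X q p := by
    rw [← hgW, smul_inv_smul, horizontal_eq_vertical_flip]
    have := mem_vertical h (isFlat_flip hf) (σ + 1) (a - n) σ'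
    rw [show flip f (σ + 1) (a - n) = q from rfl] at this
    rw [this]
    omega
  have hlpow : ∀ (m : ℕ) v, v ∈ halfspace X q p → l ^ m • v ∈ halfspace X q p := by
    intro m
    induction m with
    | zero => intro v hv; simpa using hv
    | succ m ih => intro v hv; rw [pow_succ, mul_smul]; exact ih _ (hlWW v hv)
  have hgpow : ∀ (m : ℕ) v, v ∈ halfspace X q p → g ^ m • v ∈ halfspace X q p := by
    intro m
    induction m with
    | zero => intro v hv; simpa using hv
    | succ m ih => intro v hv; rw [pow_succ, mul_smul]; exact ih _ (hgWW v hv)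
  -- the hyperplanes `g ^ j W` cross `Z`
  have hcross : ∀ j : ℕ, (Z ∩ halfspace X (g ^ j • q) (g ^ j • p)).Nonempty ∧
      (Z ∩ (halfspace X (g ^ j • q) (g ^ j • p))ᶜ).Nonempty := by
    intro j
    obtain ⟨m, hm, hmL⟩ := hpow j l hl
    have hadj : X.Adj (g ^ j • q) (g ^ j • p) := (hG.adj_iff _ _ _).2 hqp
    have hu : ∀ v : V, (g ^ j * l ^ m * (g ^ j)⁻¹) • (g ^ j • v) = g ^ j • l ^ m • v := by
      intro v
      rw [← mul_smul, ← mul_smul]
      congr 1
      group
    have hu' : ∀ v : V, (g ^ j * l ^ m * (g ^ j)⁻¹)⁻¹ • (g ^ j • v) = g ^ j • (l ^ m)⁻¹ • v := by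
      intro v
      rw [← mul_smul, ← mul_smul]
      congr 1
      group
    apply crosses_of_skewer h hG hadj (u := g ^ j * l ^ m * (g ^ j)⁻¹) (v₁ := g ^ j • q)
    · intro v hv
      obtain ⟨v, rfl⟩ : ∃ v', v = g ^ j • v' := ⟨(g ^ j)⁻¹ • v, by rw [smul_inv_smul]⟩
      rw [smul_mem_halfspace hG hc] at hv
      rw [hu, smul_mem_halfspace hG hc]
      exact hlpow m v hv
    · rw [smul_mem_halfspace hG hc]
      exact hqW
    · rw [hu', smul_mem_halfspace hG hc]
      intro hcon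
      apply hlq
      have h1 := hlpow (m - 1) _ hcon
      rw [← mul_smul] at h1
      convert h1 using 2
      obtain ⟨m', rfl⟩ : ∃ m', m = m' + 1 := ⟨m - 1, by omega⟩
      rw [Nat.add_sub_cancel, pow_succ']
      group
    · exact ⟨p, hpZ⟩
    · exact hLZ _ hmL
  -- gates
  have hZne : Z.Nonempty := ⟨p, hpZ⟩
  have hZc : GConvex X Z := gconvex_rows h _ _
  choose z hz using fun j : ℕ => exists_gate h hZc hZne (g ^ j • p)
  choose w hw using fun j : ℕ => exists_gate h hZc hZne (g ^ j • q)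
  have hwz : ∀ j, X.Adj (w j) (z j) ∧
      halfspace X (w j) (z j) = halfspace X (g ^ j • q) (g ^ j • p) := fun j =>
    gate_edge h ((hG.adj_iff _ _ _).2 hqp) (hw j) (hz j) (hcross j).1 (hcross j).2
  have hrow : ∀ j, ∃ r, X.Adj (z j) r ∧ halfspace X r (z j) = U 0 := by
    intro j
    obtain ⟨r, h1, h2, _⟩ := (hz j).1
    exact ⟨r, h1, h2⟩
  choose r hr using hrow
  -- the bounded displacement
  obtain ⟨D, hD⟩ : ∃ D : ℕ, ∀ j, X.dist (z j) (g • z j) ≤ D := by
    obtain ⟨F, _, hF, hFc⟩ := rows_cocompact hG hc (2 * n + 1) U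
    obtain ⟨F', _, hF', hFc'⟩ := rows_cocompact hG hc (2 * n + 1) U'
    rw [← hLeq] at hFc
    rw [← hLeq'] at hFc'
    have hZne' : Z'.Nonempty := ⟨g • p, (hgZ p).2 hpZ⟩
    obtain ⟨ρ₁, hρ₁⟩ := exists_dist_bound hG hc (fun k hk v hv => (hLZ' k hk v).2 hv) hZne' hF
      hFc hab2
    obtain ⟨ρ₂, hρ₂⟩ := exists_dist_bound hG hc (fun k hk v hv => (hLZ k hk v).2 hv) hZne hF'
      hFc' hab1
    refine ⟨X.dist p (g • p) + 2 * max ρ₁ ρ₂, fun j => ?_⟩
    have hgz : IsGate X Z' (g ^ (j + 1) • p) (g • z j) := by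
      have := (hz j).smul hG hc g hgZ
      rwa [← mul_smul, ← pow_succ'] at this
    obtain ⟨p', hp', hpp'⟩ := hρ₁ _ (hz (j + 1)).1
    obtain ⟨q', hq', hqq'⟩ := hρ₂ _ hgz.1
    have h1 := (hz (j + 1)).hausdorff h hgz hp' (hpp'.trans (le_max_left _ _)) hq'
      (hqq'.trans (le_max_right _ _))
    have h2 := (hz j).lipschitz h (hz (j + 1))
    rw [pow_succ, mul_smul, dist_smul hG hc] at h2
    have h3 : X.dist (z j) (g • z j) ≤ X.dist (z j) (z (j + 1)) + X.dist (z (j + 1)) (g • z j) :=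
      hc.dist_triangle
    omega
  -- pigeonhole
  obtain ⟨T, _, hTinf, hT⟩ := pigeonhole_infinite hG hc (κ := Fin 4) 0 (D + 1) Set.univ
    Set.infinite_univ (fun j => ![z j, r j, w j, g • z j]) (by
      intro j a
      fin_cases a
      · simp
      · have := SimpleGraph.dist_eq_one_iff_adj.2 (hr j).1
        show X.dist (z j) (r j) ≤ D + 1
        omega
      · have := SimpleGraph.dist_eq_one_iff_adj.2 (hwz j).1.symm
        show X.dist (z j) (w j) ≤ D + 1
        omega
      · have := hD j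
        show X.dist (z j) (g • z j) ≤ D + 1
        omega)
  obtain ⟨j₀, hj₀⟩ := hTinf.nonempty
  have hk : ∀ j, ∃ k : G, j ∈ T → k • z j₀ = z j ∧ k • r j₀ = r j ∧ k • w j₀ = w j ∧
      k • g • z j₀ = g • z j := by
    intro j
    by_cases hj : j ∈ T
    · obtain ⟨k, hk⟩ := hT j₀ hj₀ j hj
      exact ⟨k, fun _ => ⟨hk 0, hk 1, hk 2, hk 3⟩⟩
    · exact ⟨1, fun h => absurd h hj⟩
  choose k hk using hk
  have hmaps : Set.MapsTo (fun j => g⁻¹ * (k j)⁻¹ * g * k j) T {u : G | u • z j₀ = z j₀} := by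
    intro j hj
    obtain ⟨h1, _, _, h4⟩ := hk j hj
    show (g⁻¹ * (k j)⁻¹ * g * k j) • z j₀ = z j₀
    rw [mul_smul, h1, mul_smul, mul_smul, ← h4, inv_smul_smul, inv_smul_smul]
  obtain ⟨j₁, hj₁, j₂, hj₂, hne, heq⟩ :=
    hTinf.exists_ne_map_eq_of_mapsTo hmaps (hG.finite_stabilizer _)
  obtain ⟨i, hi, j, hj, hij, heq⟩ : ∃ i ∈ T, ∃ j ∈ T, i < j ∧
      g⁻¹ * (k i)⁻¹ * g * k i = g⁻¹ * (k j)⁻¹ * g * k j := by
    rcases lt_or_gt_of_ne hne with hlt | hlt
    · exact ⟨j₁, hj₁, j₂, hj₂, hlt, heq⟩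
    · exact ⟨j₂, hj₂, j₁, hj₁, hlt, heq.symm⟩
  obtain ⟨i1, i2, i3, _⟩ := hk i hi
  obtain ⟨j1, j2, j3, _⟩ := hk j hj
  set c := k j * (k i)⁻¹ with hcdef
  have hcz : c • z i = z j := by rw [hcdef, mul_smul, ← i1, inv_smul_smul, j1]
  have hcr : c • r i = r j := by rw [hcdef, mul_smul, ← i2, inv_smul_smul, j2]
  have hcw : c • w i = w j := by rw [hcdef, mul_smul, ← i3, inv_smul_smul, j3]
  have hcomm : c * g = g * c := by
    have h1 : (k i)⁻¹ * g * k i = (k j)⁻¹ * g * k j := by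
      have := congrArg (fun u => g * u) heq
      simpa [mul_assoc] using this
    calc c * g = k j * ((k i)⁻¹ * g * k i) * (k i)⁻¹ := by rw [hcdef]; group
      _ = k j * ((k j)⁻¹ * g * k j) * (k i)⁻¹ := by rw [h1]
      _ = g * c := by rw [hcdef]; group
  -- `c` preserves the vertical halfspace, `g` skewers it
  have hcU : ∀ v, c • v ∈ U 0 ↔ v ∈ U 0 := by
    intro v
    have h1 := smul_halfspace_iff hG hc c (r i) (z i) (A := U 0) (by rw [hcr, hcz, (hr j).2]) v
    rw [h1, (hr i).2]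
  have hgUU : ∀ v, v ∈ U 0 → g • v ∈ U 0 := by
    intro v hv
    have h1 := (hgU 0 (by omega) v).2 hv
    simp only [hU, hU', Nat.cast_zero, add_zero] at h1 ⊢
    exact hV h1
  refine z2_of_commute hcomm (U 0) hcU hgUU (f (a - n + 1) σ) ?_ ?_ ?_
  · simp only [hU, Nat.cast_zero, add_zero]
    rw [mem_vertical h hf]
    omega
  · rw [← hgU 0 (by omega), smul_inv_smul]
    simp only [hU', Nat.cast_zero, add_zero]
    rw [mem_vertical h hf]
    omega
  · -- `c` has infinite order
    intro m hm hcon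
    obtain ⟨e, he⟩ : ∃ e, j = i + (e + 1) := ⟨j - i - 1, by omega⟩
    have hcA : ∀ v, c • v ∈ halfspace X (g ^ j • q) (g ^ j • p) ↔
        v ∈ halfspace X (g ^ i • q) (g ^ i • p) := by
      intro v
      have h1 := smul_halfspace_iff hG hc c (w i) (z i)
        (A := halfspace X (g ^ j • q) (g ^ j • p)) (by rw [hcw, hcz, (hwz j).2]) v
      rw [h1, (hwz i).2]
    have hgj : ∀ x : V, g ^ j • x = g ^ i • g ^ (e + 1) • x := by
      intro x
      rw [he, pow_add, mul_smul]
    have hsub : ∀ v, v ∈ halfspace X (g ^ j • q) (g ^ j • p) →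
        v ∈ halfspace X (g ^ i • q) (g ^ i • p) := by
      intro v hv
      obtain ⟨v, rfl⟩ : ∃ v', v = g ^ j • v' := ⟨(g ^ j)⁻¹ • v, by rw [smul_inv_smul]⟩
      rw [smul_mem_halfspace hG hc] at hv
      rw [hgj, smul_mem_halfspace hG hc]
      exact hgpow _ v hv
    have hcpow : ∀ (m : ℕ) v, v ∈ halfspace X (g ^ i • q) (g ^ i • p) →
        c ^ m • v ∈ halfspace X (g ^ i • q) (g ^ i • p) := by
      intro m
      induction m with
      | zero => intro v hv; simpa using hv
      | succ m ih =>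
        intro v hv
        rw [pow_succ, mul_smul]
        exact ih _ (hsub _ ((hcA v).2 hv))
    have h1 : g ^ i • q ∈ halfspace X (g ^ i • q) (g ^ i • p) := by
      rw [smul_mem_halfspace hG hc]
      exact hqW
    have h2 := hcpow (m - 1) _ h1
    have h3 : c • c ^ (m - 1) • g ^ i • q = g ^ i • q := by
      rw [← mul_smul, ← pow_succ', show m - 1 + 1 = m by omega, hcon, one_smul]
    have h4 := (hcA _).2 h2
    rw [h3, hgj, hgj, smul_mem_halfspace hG hc] at h4
    -- `q ∈ g ^ (e + 1) W`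
    apply hgq
    have h5 : (g ^ (e + 1))⁻¹ • q ∈ halfspace X q p := by
      rw [← smul_mem_halfspace hG hc (g ^ (e + 1)), smul_inv_smul]
      exact h4
    have h6 := hgpow e _ h5
    rw [← mul_smul] at h6
    convert h6 using 2
    rw [pow_succ']
    group

/-- If infinitely many windows of vertical hyperplanes of a flat have commensurable common
stabilisers, then the group contains `ℤ × ℤ`. -/
theorem z2_of_windows_nat (h : IsMedianGraph X) (hG : GeometricAction G X) {f : ℤ → ℤ → V}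
    (hf : IsFlat X f) (n : ℕ) (T : Set ℕ) (hT : T.Infinite)
    (hcomm : ∀ a ∈ T, ∀ b ∈ T,
      (window G (vertical X f) a n).relIndex (window G (vertical X f) b n) ≠ 0) :
    ∃ φ : Multiplicative (ℤ × ℤ) →* G, Function.Injective φ := by
  classical
  have hc := h.connected
  have := hT.to_subtype
  set A := Nat.orderEmbeddingOfSet T with hA
  have hAT : ∀ k, A k ∈ T := fun k => by
    rw [← Nat.orderEmbeddingOfSet_range T]
    exact ⟨k, rfl⟩
  choose S S' hS hSS' l hl hl1 hl2 hlW using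
    fun (a : ℕ) (M : ℕ) => exists_vertical_shift h hG hf a n M
  obtain ⟨σ, hσ0, hσs⟩ : ∃ σ : ℕ → ℕ, σ 0 = S (A 0) 0 ∧
      ∀ k, σ (k + 1) = S (A (k + 1)) (σ k + 1) :=
    ⟨fun k => Nat.rec (S (A 0) 0) (fun k s => S (A (k + 1)) (s + 1)) k, rfl, fun k => rfl⟩
  have hσmono : StrictMono σ := strictMono_nat_of_lt_succ fun k => by
    rw [hσs]
    have := hS (A (k + 1)) (σ k + 1)
    omega
  have hσ : ∀ k, ∃ M, σ k = S (A k) M := by
    intro k
    rcases k with _ | k
    · exact ⟨0, hσ0⟩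
    · exact ⟨_, hσs k⟩
  -- pigeonhole for the rows of length `2n + 2`
  obtain ⟨T', _, hT'inf, hT'⟩ := pigeonhole_infinite hG hc (κ := Fin (2 * n + 2) × Fin 2)
    (0, 0) (2 * n + 2) Set.univ Set.infinite_univ
    (fun k b => f ((A k : ℤ) - n + (b.1 : ℕ)) ((σ k : ℤ) + (b.2 : ℕ))) (by
      rintro k ⟨a1, a2⟩
      rw [hf]
      have h1 := a1.2
      have h2 := a2.2
      simp only [Fin.val_zero]
      omega)
  have := hT'inf.to_subtype
  set E := Nat.orderEmbeddingOfSet T' with hE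
  have hET : ∀ k, E k ∈ T' := fun k => by
    rw [← Nat.orderEmbeddingOfSet_range T']
    exact ⟨k, rfl⟩
  obtain ⟨g₁, hg₁, hg₁'⟩ := exists_nested h hG hf (fun k => (A (E k) : ℤ) - n) (fun a b hab => by
    have := A.strictMono (E.strictMono hab)
    show (A (E a) : ℤ) - n < (A (E b) : ℤ) - n
    omega)
  obtain ⟨g₂, hg₂, hg₂'⟩ := exists_nested h hG (isFlat_flip hf) (fun k => (σ (E (g₁ k)) : ℤ))
    (fun a b hab => by
      have := hσmono (E.strictMono (hg₁ hab))
      show ((σ (E (g₁ a)) : ℕ) : ℤ) < ((σ (E (g₁ b)) : ℕ) : ℤ)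
      exact_mod_cast this)
  set k := E (g₁ (g₂ 0)) with hk
  set k' := E (g₁ (g₂ 1)) with hk'
  have h01 : g₂ 0 < g₂ 1 := hg₂ Nat.zero_lt_one
  have hkk' : k < k' := E.strictMono (hg₁ h01)
  obtain ⟨g, hg⟩ := hT' k (hET _) k' (hET _)
  obtain ⟨M, hM⟩ := hσ k
  have hAk : A k < A k' := A.strictMono hkk'
  refine z2_of_shift h hG hf n (a := (A k : ℕ)) (b := (A k' : ℕ)) (by exact_mod_cast hAk)
    (σ := (σ k : ℕ)) (σ' := (σ k' : ℕ)) (by exact_mod_cast hσmono hkk') (g := g) ?_ ?_
    (hg₁' _ _ h01) (hg₂' 0 1 Nat.zero_lt_one) (hl (A k) M) (τ := (S' (A k) M : ℕ)) ?_ ?_ ?_ ?_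
    (hcomm _ (hAT _) _ (hAT _)) (hcomm _ (hAT _) _ (hAT _))
  · intro i h1 h2
    have := hg (⟨(i - ((A k : ℤ) - n)).toNat, by omega⟩, 0)
    simp only [Fin.val_zero, Nat.cast_zero, add_zero] at this
    rw [show (A k : ℤ) - n + (((i - ((A k : ℤ) - n)).toNat : ℕ) : ℤ) = i by omega] at this
    rw [this]
    congr 1
    omega
  · have := hg (⟨0, by omega⟩, 1)
    simpa using this
  · rw [hM]
    exact_mod_cast hSS' (A k) M
  · rw [hM]
    exact hl1 (A k) M
  · rw [hM]
    exact hl2 (A k) M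
  · rw [hM]
    exact hlW (A k) M

/-- The flat reflected in a vertical line. -/
def reflect (f : ℤ → ℤ → V) : ℤ → ℤ → V := fun i j => f (-i) j

lemma isFlat_reflect {f : ℤ → ℤ → V} (hf : IsFlat X f) : IsFlat X (reflect f) := by
  intro i j i' j'
  show X.dist (f (-i) j) (f (-i') j') = _
  rw [hf]
  omega

lemma vertical_reflect (h : IsMedianGraph X) {f : ℤ → ℤ → V} (hf : IsFlat X f) (i : ℤ) :
    vertical X (reflect f) i = (vertical X f (-i - 1))ᶜ := by
  show halfspace X (f (-(i + 1)) 0) (f (-i) 0) = (halfspace X (f (-i - 1 + 1) 0) (f (-i - 1) 0))ᶜ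
  rw [show -i - 1 + 1 = -i by ring, show -(i + 1) = -i - 1 by ring, compl_halfspace h]
  have := adj_vertical hf (-i - 1) 0
  rwa [show -i - 1 + 1 = -i by ring] at this

lemma window_reflect (h : IsMedianGraph X) {f : ℤ → ℤ → V} (hf : IsFlat X f) (a : ℤ) (n : ℕ) :
    window G (vertical X (reflect f)) a n = window G (vertical X f) (-a - 1) n := by
  ext g
  rw [mem_window, mem_window]
  constructor
  · intro hg i hi v
    have h1 := hg (-i - 1) (by rw [abs_le] at hi ⊢; omega) v
    rw [vertical_reflect h hf, show -(-i - 1) - 1 = i by ring, Set.mem_compl_iff,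
      Set.mem_compl_iff, not_iff_not] at h1
    exact h1
  · intro hg i hi v
    rw [vertical_reflect h hf, Set.mem_compl_iff, Set.mem_compl_iff, not_iff_not]
    exact hg (-i - 1) (by rw [abs_le] at hi ⊢; omega) v

/-- If infinitely many windows of vertical hyperplanes of a flat have commensurable common
stabilisers, then the group contains `ℤ × ℤ`. -/
theorem z2_of_windows (h : IsMedianGraph X) (hG : GeometricAction G X) {f : ℤ → ℤ → V}
    (hf : IsFlat X f) (n : ℕ) (T : Set ℤ) (hT : T.Infinite)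
    (hcomm : ∀ a ∈ T, ∀ b ∈ T,
      (window G (vertical X f) a n).relIndex (window G (vertical X f) b n) ≠ 0) :
    ∃ φ : Multiplicative (ℤ × ℤ) →* G, Function.Injective φ := by
  by_cases hpos : {a : ℕ | (a : ℤ) ∈ T}.Infinite
  · exact z2_of_windows_nat h hG hf n _ hpos fun a ha b hb => hcomm _ ha _ hb
  · by_cases hneg : {a : ℕ | -(a : ℤ) - 1 ∈ T}.Infinite
    · refine z2_of_windows_nat h hG (isFlat_reflect hf) n _ hneg fun a ha b hb => ?_
      rw [window_reflect h hf, window_reflect h hf]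
      exact hcomm _ ha _ hb
    · exfalso
      rw [Set.not_infinite] at hpos hneg
      apply hT
      refine ((hpos.image (fun a : ℕ => (a : ℤ))).union
        (hneg.image (fun a : ℕ => -(a : ℤ) - 1))).subset ?_
      intro a ha
      rcases lt_or_ge a 0 with h0 | h0
      · right
        refine ⟨(-a - 1).toNat, ?_, ?_⟩
        · show -(((-a - 1).toNat : ℕ) : ℤ) - 1 ∈ T
          rwa [show -(((-a - 1).toNat : ℕ) : ℤ) - 1 = a by omega]
        · show -(((-a - 1).toNat : ℕ) : ℤ) - 1 = a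
          omega
      · left
        refine ⟨a.toNat, ?_, ?_⟩
        · show ((a.toNat : ℕ) : ℤ) ∈ T
          rwa [show ((a.toNat : ℕ) : ℤ) = a by omega]
        · show ((a.toNat : ℕ) : ℤ) = a
          omega

end Pool.Agent.Lib.MP_140312_al_Chain
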